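import Mathlib

/-!
# Syndrome decoding: index vectors and vectors in a space over a small field
-/

set_option autoImplicit false

namespace Pool.Agent.Zk99.HB

open Finset

variable {ι : Type} {k : Type} [Field k] {W : Type} [AddCommGroup W] [Module k W]

/-- A functional with prescribed values on an independent family. -/
lemma exists_functional (v : ι → W) (S : Set ι) (hS : LinearIndepOn k v S) (f : ι → k) :
    ∃ φ : W →ₗ[k] k, ∀ j ∈ S, φ (v j) = f j := by
  have hker : LinearMap.ker (Finsupp.linearCombination k (fun j : S => v j)) = ⊥ :=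
    LinearMap.ker_eq_bot.2 hS
  obtain ⟨g, hg⟩ := LinearMap.exists_leftInverse_of_injective _ hker
  refine ⟨(Finsupp.linearCombination k (fun j : S => f j)) ∘ₗ g, fun j hj => ?_⟩
  have h1 : v j = Finsupp.linearCombination k (fun j : S => v j) (Finsupp.single ⟨j, hj⟩ 1) := by
    rw [Finsupp.linearCombination_single, one_smul]
  have h2 : g (v j) = Finsupp.single ⟨j, hj⟩ 1 := by
    rw [h1]
    exact LinearMap.congr_fun hg _
  rw [LinearMap.comp_apply, h2, Finsupp.linearCombination_single, one_smul]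

/-- **Syndrome decoding.** -/
theorem code [Fintype ι] [DecidableEq ι] (N : ι → ℕ) (p : ∀ j, Fin (N j) → k)
    (hp : ∀ j, Function.Surjective (p j)) (v : ι → W) (B : Finset ι)
    (hB : LinearIndepOn k v (B : Set ι)) (hsp : ⊤ ≤ Submodule.span k (v '' (B : Set ι))) :
    ∃ F : (∀ j, Fin (N j)) → Finset ι,
      (∀ S : Finset ι, LinearIndepOn k v (S : Set ι) → ∀ c₀ : ∀ j, Fin (N j),
        ∃ c : ∀ j, Fin (N j), (∀ j ∈ S, c j = c₀ j) ∧ F c = S \ B) ∧
      (Fintype.card {c // (F c).Nonempty}) + ∏ b ∈ B, N b ≤ ∏ j, N j := by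
  classical
  choose φ hφ using fun c : (∀ j, Fin (N j)) =>
    exists_functional v (B : Set ι) hB (fun j => p j (c j))
  set F : (∀ j, Fin (N j)) → Finset ι := fun c =>
    univ.filter fun e => e ∉ B ∧ p e (c e) ≠ φ c (v e) with hF
  have hdec : ∀ S : Finset ι, LinearIndepOn k v (S : Set ι) → ∀ c₀ : ∀ j, Fin (N j),
        ∃ c : ∀ j, Fin (N j), (∀ j ∈ S, c j = c₀ j) ∧ F c = S \ B := by
    intro S hS c₀
    obtain ⟨ψ, hψ⟩ := exists_functional v (S : Set ι) hS
      (fun j => if j ∈ B then p j (c₀ j) else p j (c₀ j) - 1)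
    choose d hd using fun j => hp j (ψ (v j))
    set c : ∀ j, Fin (N j) := fun j => if j ∈ S then c₀ j else d j with hc
    have hcS : ∀ j ∈ S, c j = c₀ j := fun j hj => by simp only [hc, if_pos hj]
    have hcd : ∀ j, j ∉ S → c j = d j := fun j hj => by simp only [hc, if_neg hj]
    have hcB : ∀ b ∈ B, p b (c b) = ψ (v b) := by
      intro b hb
      by_cases hbS : b ∈ S
      · rw [hcS b hbS, hψ b (Finset.mem_coe.2 hbS), if_pos hb]
      · rw [hcd b hbS, hd]
    have hφψ : φ c = ψ := by
      refine LinearMap.ext_on_range (v := fun b : B => v b) ?_ fun b => ?_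
      · rw [eq_top_iff]
        refine hsp.trans (Submodule.span_mono ?_)
        rintro _ ⟨b, hb, rfl⟩
        exact ⟨⟨b, hb⟩, rfl⟩
      · rw [hφ c b (Finset.mem_coe.2 b.2), hcB b b.2]
    refine ⟨c, hcS, ?_⟩
    ext e
    rw [hF]
    simp only [mem_filter, mem_univ, true_and, mem_sdiff]
    rw [hφψ]
    constructor
    · rintro ⟨h1, h2⟩
      refine ⟨?_, h1⟩
      by_contra hcon
      rw [hcd e hcon, hd] at h2
      exact h2 rfl
    · rintro ⟨h1, h2⟩
      refine ⟨h2, ?_⟩
      rw [hcS e h1, hψ e (Finset.mem_coe.2 h1), if_neg h2]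
      intro h
      have : (1 : k) = 0 := by linear_combination h
      exact one_ne_zero this
  refine ⟨F, hdec, ?_⟩
  -- the count
  have hne : ∀ j, Nonempty (Fin (N j)) := fun j => ⟨(hp j 0).choose⟩
  choose g hg1 hg2 using fun cB : (∀ b : B, Fin (N b)) =>
    hdec B hB (fun j => if h : j ∈ B then cB ⟨j, h⟩ else (hne j).some)
  have hinj : Function.Injective (fun cB : (∀ b : B, Fin (N b)) =>
      (⟨g cB, by rw [Finset.not_nonempty_iff_eq_empty, hg2, Finset.sdiff_self]⟩ :
        {c // ¬ (F c).Nonempty})) := by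
    intro a b hab
    have h1 : g a = g b := congrArg Subtype.val hab
    funext j
    have h2 := hg1 a j j.2
    have h3 := hg1 b j j.2
    rw [h1, h3] at h2
    simp only [dif_pos j.2] at h2
    exact h2.symm
  have hcard := Fintype.card_le_of_injective _ hinj
  have h1 : Fintype.card (∀ b : B, Fin (N b)) = ∏ b ∈ B, N b := by
    rw [Fintype.card_pi]
    simp only [Fintype.card_fin]
    exact Finset.prod_coe_sort B N
  have h2 := Fintype.card_subtype_compl (fun c : (∀ j, Fin (N j)) => (F c).Nonempty)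
  have h3 : Fintype.card {c // (F c).Nonempty} ≤ Fintype.card (∀ j, Fin (N j)) :=
    Fintype.card_subtype_le _
  have h4 : Fintype.card (∀ j, Fin (N j)) = ∏ j, N j := by
    rw [Fintype.card_pi]
    simp
  rw [h1, h2, h4] at hcard
  rw [h4] at h3
  omega

end Pool.Agent.Zk99.HB
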