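import Mathlib
import Pool.Agent.Zk99.HB.Code

/-!
# Decoding with vectors which depend on the set of the dominant coordinates
-/

set_option autoImplicit false

namespace Pool.Agent.Zk99.HB

open Finset

variable {ι : Type} [Fintype ι] [DecidableEq ι] {k : Type} [Field k] {W : Type} [AddCommGroup W]
  [Module k W]

/-- The index vectors which are not `z` outside of `B`. -/
lemma card_nonzero (N : ι → ℕ) (z : ∀ j, Fin (N j)) (B : Finset ι) :
    Fintype.card {c : ∀ j, Fin (N j) // ∃ e, e ∉ B ∧ c e ≠ z e} + ∏ b ∈ B, N b ≤ ∏ j, N j := by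
  classical
  have hinj : Function.Injective (fun cB : (∀ b : B, Fin (N b)) =>
      (⟨fun j => if h : j ∈ B then cB ⟨j, h⟩ else z j, by
        rintro ⟨e, he1, he2⟩
        exact he2 (dif_neg he1)⟩ :
        {c : ∀ j, Fin (N j) // ¬ ∃ e, e ∉ B ∧ c e ≠ z e})) := by
    intro a b hab
    funext j
    have h1 := congrFun (congrArg Subtype.val hab) j
    simpa only [dif_pos j.2] using h1
  have hcard := Fintype.card_le_of_injective _ hinj
  have h1 : Fintype.card (∀ b : B, Fin (N b)) = ∏ b ∈ B, N b := by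
    rw [Fintype.card_pi]
    simp only [Fintype.card_fin]
    exact Finset.prod_coe_sort B N
  have h2 := Fintype.card_subtype_compl (fun c : (∀ j, Fin (N j)) => ∃ e, e ∉ B ∧ c e ≠ z e)
  have h3 : Fintype.card {c : ∀ j, Fin (N j) // ∃ e, e ∉ B ∧ c e ≠ z e} ≤
    Fintype.card (∀ j, Fin (N j)) := Fintype.card_subtype_le _
  have h4 : Fintype.card (∀ j, Fin (N j)) = ∏ j, N j := by
    rw [Fintype.card_pi]
    simp
  rw [h1, h2, h4] at hcard
  rw [h4] at h3
  omega

/-- **Local decoding.** -/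
theorem local_code (N : ι → ℕ) (p : ∀ j, Fin (N j) → k)
    (hp : ∀ j, Function.Surjective (p j)) (B : Finset ι) (v : Finset ι → ι → W)
    (hB : ∀ F, LinearIndepOn k (v F) (B : Set ι))
    (hsp : ∀ F, ⊤ ≤ Submodule.span k (v F '' (B : Set ι))) :
    ∃ (Γ : Type) (_ : Fintype Γ) (c : Γ → ∀ j, Fin (N j)) (Fs : Γ → Finset ι),
      Fintype.card Γ + ∏ b ∈ B, N b ≤ ∏ j, N j ∧
      ∀ S : Finset ι, (S \ B).Nonempty → LinearIndepOn k (v (S \ B)) (S : Set ι) →
        ∀ c₀ : ∀ j, Fin (N j), ∃ γ, (∀ j ∈ S, c γ j = c₀ j) ∧ Fs γ = S \ B := by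
  classical
  choose g hg using fun j => hp j
  set z : ∀ j, Fin (N j) := fun j => g j 0 with hz
  choose φ hφ using fun (F : Finset ι) (c : (∀ j, Fin (N j))) =>
    exists_functional (v F) (B : Set ι) (hB F) (fun j => p j (c j))
  set Fc : (∀ j, Fin (N j)) → Finset ι := fun c => univ.filter fun e => e ∉ B ∧ c e ≠ z e with hFc
  refine ⟨{c : ∀ j, Fin (N j) // ∃ e, e ∉ B ∧ c e ≠ z e}, inferInstance,
    fun γ j => if j ∈ B then γ.1 j else
      Equiv.swap (z j) (g j (φ (Fc γ.1) γ.1 (v (Fc γ.1) j))) (γ.1 j),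
    fun γ => Fc γ.1, card_nonzero N z B, ?_⟩
  intro S hS hind c₀
  set F : Finset ι := S \ B with hF
  obtain ⟨ψ, hψ⟩ := exists_functional (v F) (S : Set ι) hind
    (fun j => if j ∈ B then p j (c₀ j) else p j (c₀ j) - 1)
  -- the vector
  set c : ∀ j, Fin (N j) := fun j => if j ∈ B then (if j ∈ S then c₀ j else g j (ψ (v F j))) else
    if j ∈ S then Equiv.swap (z j) (g j (ψ (v F j))) (c₀ j) else z j with hc
  have hval : ∀ b ∈ B, p b (c b) = ψ (v F b) := by
    intro b hb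
    by_cases hbS : b ∈ S
    · have h1 : c b = c₀ b := by simp only [hc, if_pos hbS, if_pos hb]
      rw [h1, hψ b (Finset.mem_coe.2 hbS), if_pos hb]
    · have h1 : c b = g b (ψ (v F b)) := by simp only [hc, if_neg hbS, if_pos hb]
      rw [h1, hg]
  have hφψ : φ F c = ψ := by
    refine LinearMap.ext_on_range (v := fun b : B => v F b) ?_ fun b => ?_
    · rw [eq_top_iff]
      refine (hsp F).trans (Submodule.span_mono ?_)
      rintro _ ⟨b, hb, rfl⟩
      exact ⟨⟨b, hb⟩, rfl⟩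
    · rw [hφ F c b (Finset.mem_coe.2 b.2), hval b b.2]
  have hxne : ∀ e ∈ F, c₀ e ≠ g e (ψ (v F e)) := by
    intro e he h
    have h1 := hg e (ψ (v F e))
    rw [← h, hψ e (Finset.mem_coe.2 (mem_sdiff.1 he).1), if_neg (mem_sdiff.1 he).2] at h1
    have : (1 : k) = 0 := by linear_combination h1
    exact one_ne_zero this
  have hcF : ∀ e ∈ F, c e = Equiv.swap (z e) (g e (ψ (v F e))) (c₀ e) := fun e he => by
    simp only [hc, if_neg (mem_sdiff.1 he).2, if_pos (mem_sdiff.1 he).1]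
  have hcFne : ∀ e ∈ F, c e ≠ z e := by
    intro e he h
    rw [hcF e he] at h
    have h2 : Equiv.swap (z e) (g e (ψ (v F e))) (g e (ψ (v F e))) = z e :=
      Equiv.swap_apply_right _ _
    exact hxne e he ((Equiv.swap (z e) (g e (ψ (v F e)))).injective (h.trans h2.symm))
  have hcN : ∀ e, e ∉ B → e ∉ F → c e = z e := by
    intro e he1 he2
    have he3 : e ∉ S := fun h => he2 (mem_sdiff.2 ⟨h, he1⟩)
    simp only [hc, if_neg he1, if_neg he3]
  have hFcF : Fc c = F := by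
    ext e
    rw [hFc]
    simp only [mem_filter, mem_univ, true_and]
    constructor
    · rintro ⟨h1, h2⟩
      by_contra h3
      exact h2 (hcN e h1 h3)
    · intro h
      exact ⟨(mem_sdiff.1 h).2, hcFne e h⟩
  obtain ⟨e₀, he₀⟩ := hS
  refine ⟨⟨c, e₀, (mem_sdiff.1 he₀).2, hcFne e₀ he₀⟩, ?_, hFcF⟩
  intro j hj
  show (if j ∈ B then c j else Equiv.swap (z j) (g j (φ (Fc c) c (v (Fc c) j))) (c j)) = c₀ j
  rw [hFcF, hφψ]
  by_cases hjB : j ∈ B
  · rw [if_pos hjB]
    simp only [hc, if_pos hjB, if_pos hj]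
  · rw [if_neg hjB, hcF j (mem_sdiff.2 ⟨hj, hjB⟩)]
    exact (Equiv.swap (z j) (g j (ψ (v F j)))).symm_apply_apply (c₀ j)

end Pool.Agent.Zk99.HB
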