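import Mathlib
import Pool.Agent.R753.Sums

/-!
# Covering by a finite family of directions; gain of a direction with ranked weights
-/

set_option autoImplicit false

namespace Pool.Agent.Zk99.HB

open Finset Filter Topology
open Pool.Agent.R753 (Sol interior_of_lt body)

/-- Compactness: a pointwise descent towards the interior along finitely many directions gives a
covering by translates of the interior. -/
theorem cover_of_pointwise {V : Type} [NormedAddCommGroup V] [NormedSpace ℝ V] {K : Set V}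
    (hconv : Convex ℝ K) (hcomp : IsCompact K) {Γ : Type} [Fintype Γ] (W : Γ → V)
    (hpt : ∀ x ∈ K, ∃ (c : Γ) (ε : ℝ), 0 < ε ∧ ε ≤ 1 ∧ x - ε • W c ∈ interior K) :
    ∃ T : Finset V, T.card ≤ Fintype.card Γ ∧ K ⊆ ⋃ t ∈ T, (fun x => t + x) '' interior K := by
  classical
  set U : ℕ → Set V := fun m => {x | ∃ (c : Γ) (ε : ℝ),
    1 / ((m : ℝ) + 1) ≤ ε ∧ ε ≤ 1 ∧ x - ε • W c ∈ interior K} with hU
  have hUo : ∀ m, IsOpen (U m) := by
    intro m
    have : U m = ⋃ (c : Γ), ⋃ (ε : ℝ), ⋃ (_ : 1 / ((m : ℝ) + 1) ≤ ε ∧ ε ≤ 1),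
        {x | x - ε • W c ∈ interior K} := by
      ext x
      simp only [hU, Set.mem_ofPred_eq, Set.mem_iUnion, exists_prop, and_assoc]
    rw [this]
    refine isOpen_iUnion fun c => isOpen_iUnion fun ε => isOpen_iUnion fun _ => ?_
    exact isOpen_interior.preimage (continuous_id.sub continuous_const)
  have hUm : Monotone U := by
    rintro m m' hmm x ⟨c, ε, h1, h2, h3⟩
    refine ⟨c, ε, le_trans ?_ h1, h2, h3⟩
    have : (m : ℝ) ≤ m' := by exact_mod_cast hmm
    exact one_div_le_one_div_of_le (by positivity) (by linarith)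
  have hUc : K ⊆ ⋃ m, U m := by
    intro x hx
    obtain ⟨c, ε, h1, h2, h3⟩ := hpt x hx
    obtain ⟨m, hm⟩ := exists_nat_one_div_lt h1
    exact Set.mem_iUnion.2 ⟨m, c, ε, hm.le, h2, h3⟩
  obtain ⟨m, hm⟩ := hcomp.elim_directed_cover U hUo hUc hUm.directed_le
  set ε₁ : ℝ := 1 / ((m : ℝ) + 1) with hε₁
  have hε₁0 : 0 < ε₁ := by positivity
  refine ⟨Finset.univ.image fun c : Γ => ε₁ • W c, ?_, ?_⟩
  · refine Finset.card_image_le.trans ?_
    rw [Finset.card_univ]
  · intro x hx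
    obtain ⟨c, ε, h1, h2, h3⟩ := hm hx
    have hε0 : 0 < ε := hε₁0.trans_le h1
    have hy : x - ε₁ • W c ∈ interior K := by
      have h4 : (1 - ε₁ / ε) • x + (ε₁ / ε) • (x - ε • W c) = x - ε₁ • W c := by
        rw [smul_sub, smul_smul, div_mul_cancel₀ _ hε0.ne', sub_smul, one_smul]
        abel
      rw [← h4]
      exact hconv.combo_self_interior_mem_interior hx h3
        (sub_nonneg.2 ((div_le_one hε0).2 h1)) (by positivity) (by ring)
    refine Set.mem_iUnion₂.2 ⟨_, Finset.mem_image_of_mem _ (Finset.mem_univ c), _, hy, ?_⟩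
    simp

variable {ι : Type} [Fintype ι]

/-- **Gain of a direction with ranked weights.** A vector `Y` which is smaller than `X` by at least
`κ ε δ ^ ρ i` on the support of `X` and at most `D ε δ ^ ρ i` outside lies in the interior of
`M`, if for each `j` outside of the support there is a point `z` of `M` with `z j ≥ η` which
dominates `X` on the part of the support whose rank is at least the rank of `j`. -/
lemma gain_rank {M : Set (ι → ℝ)} (hMc : Convex ℝ M) (hM0 : (0 : ι → ℝ) ∈ interior M)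
    (hsol : Sol M) {η R κ D δ : ℝ} (hη : 0 < η) (hR : 0 < R) (hD : 0 < D)
    (hδ0 : 0 < δ) (hδ1 : δ ≤ 1) (hδ : δ * (2 * D / η * R * Fintype.card ι) < κ)
    {X : ι → ℝ} (hX : X ∈ M) (hX0 : ∀ i, 0 ≤ X i) (hXR : ∀ i, X i ≤ R) (ρ : ι → ℕ)
    (hz : ∀ j, X j = 0 → ∃ z ∈ M, (∀ i, 0 ≤ z i) ∧ η ≤ z j ∧
      ∀ i, 0 < X i → ρ j ≤ ρ i → X i ≤ z i)
    {ε : ℝ} (hε : 0 < ε) (hε1 : ε * (2 * D / η * Fintype.card ι) ≤ 1) {Y : ι → ℝ}
    (hY0 : ∀ i, 0 ≤ Y i) (hY1 : ∀ i, 0 < X i → Y i ≤ X i - κ * (ε * δ ^ ρ i))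
    (hY2 : ∀ i, X i = 0 → Y i ≤ D * (ε * δ ^ ρ i)) : Y ∈ interior M := by
  classical
  set A : ℝ := 2 * D / η with hA
  have hA0 : 0 < A := by positivity
  have hz' : ∀ j, ∃ z ∈ M, (∀ i, 0 ≤ z i) ∧ (X j = 0 → η ≤ z j ∧
      ∀ i, 0 < X i → ρ j ≤ ρ i → X i ≤ z i) := by
    intro j
    by_cases hj : X j = 0
    · obtain ⟨z, h1, h2, h3, h4⟩ := hz j hj
      exact ⟨z, h1, h2, fun _ => ⟨h3, h4⟩⟩
    · exact ⟨X, hX, hX0, fun h => absurd h hj⟩
  choose z hzM hz0 hz1 using hz'
  set l : ι → ℝ := fun j => if X j = 0 then A * (ε * δ ^ ρ j) else 0 with hl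
  have hpow : ∀ i, 0 < δ ^ ρ i := fun i => pow_pos hδ0 _
  have hpow1 : ∀ i, δ ^ ρ i ≤ 1 := fun i => pow_le_one₀ hδ0.le hδ1
  have hl0 : ∀ j, 0 ≤ l j := by
    intro j
    have := hpow j
    simp only [hl]
    split_ifs
    · positivity
    · exact le_rfl
  have hl1 : ∀ j, l j ≤ A * ε := by
    intro j
    simp only [hl]
    split_ifs
    · have h1 := hpow1 j
      have h2 : ε * δ ^ ρ j ≤ ε := by nlinarith
      exact mul_le_mul_of_nonneg_left h2 hA0.le
    · positivity
  have hsum : ∑ j, l j ≤ 1 := by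
    calc ∑ j, l j ≤ ∑ _j : ι, A * ε := Finset.sum_le_sum fun j _ => hl1 j
      _ = ε * (A * Fintype.card ι) := by
          rw [Finset.sum_const, Finset.card_univ, nsmul_eq_mul]
          ring
      _ ≤ 1 := hε1
  set p : ι → ℝ := (1 - ∑ j, l j) • X + ∑ j, l j • z j with hp
  have hpM : p ∈ M := by
    have h := hMc.sum_mem (t := (Finset.univ : Finset (Option ι)))
      (w := fun o => Option.elim o (1 - ∑ j, l j) l) (z := fun o => Option.elim o X z)
      (fun o _ => by
        cases o with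
        | none => simpa using hsum
        | some j => exact hl0 j)
      (by rw [Fintype.sum_option]; simp)
      (fun o _ => by
        cases o with
        | none => exact hX
        | some j => exact hzM j)
    rw [Fintype.sum_option] at h
    exact h
  have hpi : ∀ i, p i = X i + ∑ j, l j * (z j i - X i) := by
    intro i
    simp only [hp, Pi.add_apply, Pi.smul_apply, smul_eq_mul, Finset.sum_apply]
    rw [sub_mul, one_mul, Finset.sum_mul, sub_add, ← Finset.sum_sub_distrib, sub_eq_add_neg,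
      ← Finset.sum_neg_distrib]
    congr 1
    refine Finset.sum_congr rfl fun j _ => ?_
    ring
  refine interior_of_lt hMc hM0 hsol hpM hY0 fun i => ?_
  rw [hpi]
  rcases (hX0 i).lt_or_eq with hi | hi
  · have h1 := hY1 i hi
    have h2 : ∀ j, -(A * (ε * (δ * δ ^ ρ i)) * R) ≤ l j * (z j i - X i) := by
      intro j
      have hpi' := hpow i
      have hneg : -(A * (ε * (δ * δ ^ ρ i)) * R) ≤ 0 := by
        have : 0 < A * (ε * (δ * δ ^ ρ i)) * R := by positivity
        linarith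
      by_cases hj : X j = 0
      · by_cases hr : ρ j ≤ ρ i
        · have h3 := (hz1 j hj).2 i hi hr
          exact hneg.trans (mul_nonneg (hl0 j) (by linarith))
        · push Not at hr
          have h3 : l j = A * (ε * δ ^ ρ j) := by simp only [hl, if_pos hj]
          have h4 : δ ^ ρ j ≤ δ * δ ^ ρ i := by
            rw [← pow_succ']
            exact pow_le_pow_of_le_one hδ0.le hδ1 hr
          have h5 : l j ≤ A * (ε * (δ * δ ^ ρ i)) := by
            rw [h3]
            gcongr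
          have h6 : -X i ≤ z j i - X i := by have := hz0 j i; linarith
          have h7 : l j * X i ≤ A * (ε * (δ * δ ^ ρ i)) * R :=
            mul_le_mul h5 (hXR i) (hX0 i) (by positivity)
          have h8 : l j * (-X i) ≤ l j * (z j i - X i) := mul_le_mul_of_nonneg_left h6 (hl0 j)
          linarith
      · have h3 : l j = 0 := by simp only [hl, if_neg hj]
        rw [h3, zero_mul]
        exact hneg
    have h3 : -(δ * (A * R * Fintype.card ι) * (ε * δ ^ ρ i)) ≤ ∑ j, l j * (z j i - X i) := by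
      calc -(δ * (A * R * Fintype.card ι) * (ε * δ ^ ρ i))
          = ∑ _j : ι, -(A * (ε * (δ * δ ^ ρ i)) * R) := by
            rw [Finset.sum_const, Finset.card_univ, nsmul_eq_mul]
            ring
        _ ≤ _ := Finset.sum_le_sum fun j _ => h2 j
    have h4 : 0 < ε * δ ^ ρ i := mul_pos hε (hpow i)
    have h5 := mul_lt_mul_of_pos_right hδ h4
    linarith
  · have h1 := hY2 i hi.symm
    have h2 : l i * (z i i - X i) ≤ ∑ j, l j * (z j i - X i) := by
      refine Finset.single_le_sum (f := fun j => l j * (z j i - X i)) (fun j _ => ?_)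
        (Finset.mem_univ i)
      refine mul_nonneg (hl0 j) ?_
      rw [← hi, sub_zero]
      exact hz0 j i
    have h3 : l i = A * (ε * δ ^ ρ i) := by simp only [hl, if_pos hi.symm]
    have h4 := (hz1 i hi.symm).1
    have h5 : 0 < ε * δ ^ ρ i := mul_pos hε (hpow i)
    have e : z i i - X i = z i i := by rw [← hi, sub_zero]
    rw [h3, e] at h2
    have h6 : A * (ε * δ ^ ρ i) * η ≤ A * (ε * δ ^ ρ i) * z i i :=
      mul_le_mul_of_nonneg_left h4 (by positivity)
    have h7 : A * (ε * δ ^ ρ i) * η = 2 * (D * (ε * δ ^ ρ i)) := by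
      rw [hA]
      field_simp
    have h8 : 0 < D * (ε * δ ^ ρ i) := mul_pos hD h5
    linarith

omit [Fintype ι] in
/-- The decomposition of a point of the convex hull of `G`. -/
lemma hull_split {M G : Set (ι → ℝ)} (hMc : Convex ℝ M) (hGM : ∀ Y ∈ G, Y ∈ M ∧ ∀ i, 0 ≤ Y i)
    {X : ι → ℝ} (hX : X ∈ convexHull ℝ G) :
    ∃ Y ∈ G, ∃ Z ∈ M, (∀ i, 0 ≤ Z i) ∧ ∃ t : ℝ, 0 < t ∧ t ≤ 1 ∧ X = t • Y + (1 - t) • Z := by
  set Q : Set (ι → ℝ) := {X | ∃ Y ∈ G, ∃ Z ∈ M, (∀ i, 0 ≤ Z i) ∧ ∃ t : ℝ, 0 < t ∧ t ≤ 1 ∧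
    X = t • Y + (1 - t) • Z} with hQ
  have hQM : ∀ X ∈ Q, X ∈ M ∧ ∀ i, 0 ≤ X i := by
    rintro X ⟨Y, hY, Z, hZ, hZ0, t, ht0, ht1, rfl⟩
    refine ⟨hMc (hGM Y hY).1 hZ ht0.le (by linarith) (by ring), fun i => ?_⟩
    simp only [Pi.add_apply, Pi.smul_apply, smul_eq_mul]
    have h1 := (hGM Y hY).2 i
    have h2 := hZ0 i
    have h3 : 0 ≤ 1 - t := by linarith
    positivity
  have hone : ∀ X₁ ∈ Q, ∀ X₂ ∈ Q, ∀ a b : ℝ, 0 < a → 0 ≤ b → a + b = 1 → a • X₁ + b • X₂ ∈ Q := by
    rintro X₁ ⟨Y, hY, Z, hZ, hZ0, t, ht0, ht1, rfl⟩ X₂ hX₂ a b ha hb hab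
    obtain ⟨hX₂M, hX₂0⟩ := hQM X₂ hX₂
    have hat : 0 < a * t := mul_pos ha ht0
    have hat1 : a * t ≤ 1 := by nlinarith
    rcases hat1.lt_or_eq with h | h
    · have h1 : 0 < 1 - a * t := by linarith
      refine ⟨Y, hY, (a * (1 - t) / (1 - a * t)) • Z + (b / (1 - a * t)) • X₂, ?_, ?_, a * t, hat,
        hat1, ?_⟩
      · refine hMc hZ hX₂M ?_ (by positivity) ?_
        · have : 0 ≤ 1 - t := by linarith
          positivity
        · rw [← add_div, div_eq_one_iff_eq h1.ne']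
          linarith
      · intro i
        simp only [Pi.add_apply, Pi.smul_apply, smul_eq_mul]
        have h2 := hZ0 i
        have h3 := hX₂0 i
        have h4 : 0 ≤ 1 - t := by linarith
        positivity
      · rw [smul_add, smul_smul, smul_add, smul_smul, smul_smul, smul_smul,
          mul_div_cancel₀ _ h1.ne', mul_div_cancel₀ _ h1.ne', add_assoc]
    · have h1 : a = 1 ∧ t = 1 := by
        have h2 : a ≤ 1 := by linarith
        constructor
        · nlinarith
        · nlinarith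
      have h2 : b = 0 := by linarith [h1.1]
      refine ⟨Y, hY, Z, hZ, hZ0, 1, one_pos, le_rfl, ?_⟩
      rw [h1.1, h1.2, h2]
      simp
  have hQc : Convex ℝ Q := by
    intro X₁ h₁ X₂ h₂ a b ha hb hab
    rcases ha.lt_or_eq with h | h
    · exact hone X₁ h₁ X₂ h₂ a b h hb hab
    · have hb1 : 0 < b := by linarith
      rw [add_comm]
      exact hone X₂ h₂ X₁ h₁ b a hb1 ha (by linarith)
  have hGQ : G ⊆ Q := fun Y hY => ⟨Y, hY, Y, (hGM Y hY).1, (hGM Y hY).2, 1, one_pos, le_rfl, by simp⟩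
  exact convexHull_min hGQ hQc hX

end Pool.Agent.Zk99.HB
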