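import Mathlib
import Pool.Agent.Zk99.HB.Cover

/-!
# Covering of unconditional sums of convex bodies by a scheme of ranked index vectors
-/

set_option autoImplicit false

namespace Pool.Agent.Zk99.HB

open Finset Filter Topology
open Pool.Agent.R753 (Sol interior_of_lt body)

variable {ι : Type} [Fintype ι]

/-- The covering number of a finite family of points of the profile set `M`, under the condition
that each nonnegative point of `M` is in the convex hull of the set `G`. -/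
theorem scheme_cover {E : ι → Type} [∀ j, NormedAddCommGroup (E j)]
    [∀ j, NormedSpace ℝ (E j)] [∀ j, FiniteDimensional ℝ (E j)]
    (C : ∀ j, Set (E j)) (hCc : ∀ j, Convex ℝ (C j))
    (hCk : ∀ j, IsCompact (C j)) (hC0 : ∀ j, (0 : E j) ∈ interior (C j))
    (N : ι → ℕ)
    (hcov : ∀ j, ∃ T : Finset (E j), T.card ≤ N j ∧
      C j ⊆ ⋃ t ∈ T, (fun x => t + x) '' interior (C j))
    (M : Set (ι → ℝ)) (hMc : Convex ℝ M) (hMcl : IsClosed M)
    (hM0 : (0 : ι → ℝ) ∈ interior M) (hMs : Sol M)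
    (K : Set (∀ j, E j)) (hK : K = {x | (fun j => gauge (C j) (x j)) ∈ M})
    (hKb : Bornology.IsBounded K)
    (G : Set (ι → ℝ)) (hGM : ∀ Y ∈ G, Y ∈ M ∧ ∀ i, 0 ≤ Y i)
    (hG : ∀ X ∈ M, (∀ i, 0 ≤ X i) → X ∈ convexHull ℝ G)
    {Γ : Type} [Fintype Γ] (c : Γ → ∀ j, Fin (N j)) (ρ : Γ → ι → ℕ) {η : ℝ} (hη : 0 < η)
    (T₀ : Finset (∀ j, E j))
    (hmain : ∀ Y ∈ G, ∀ x ∈ K, (∀ j, gauge (C j) (x j) = Y j) →
      (∃ t ∈ T₀, x - t ∈ interior K) ∨
      ∀ c₀ : ∀ j, Fin (N j), ∃ γ, (∀ j, 0 < Y j → c γ j = c₀ j) ∧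
        ∀ j, Y j = 0 → ∃ z ∈ M, (∀ i, 0 ≤ z i) ∧ η ≤ z j ∧
          ∀ i, 0 < Y i → ρ γ j ≤ ρ γ i → Y i ≤ z i) :
    Convex ℝ K ∧ IsCompact K ∧ (0 : ∀ j, E j) ∈ interior K ∧
    ∃ T : Finset (∀ j, E j), T.card ≤ T₀.card + Fintype.card Γ ∧
      K ⊆ ⋃ t ∈ T, (fun x => t + x) '' interior K := by
  classical
  obtain ⟨hconv, hcomp, hint0, hint⟩ := body C hCc hC0 M hMc hMcl hM0 hMs K hK hKb
  refine ⟨hconv, hcomp, hint0, ?_⟩
  -- constants
  choose v κ D hκ0 hκ1 hD1 hv1 hv2 using fun j =>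
    Pool.Agent.H665R3.Lam.step (hCc j) (hCk j) (hC0 j) (hcov j)
  obtain ⟨κ₀, hκ₀0, hκ₀⟩ : ∃ κ₀ : ℝ, 0 < κ₀ ∧ ∀ j, κ₀ ≤ κ j := by
    rcases isEmpty_or_nonempty ι with hemp | hnonemp
    · exact ⟨1, one_pos, fun j => (hemp.false j).elim⟩
    · obtain ⟨j, -, hj⟩ := Finset.exists_min_image Finset.univ κ Finset.univ_nonempty
      exact ⟨κ j, hκ0 j, fun i => hj i (Finset.mem_univ i)⟩
  obtain ⟨D₀, hD₀1, hD₀⟩ : ∃ D₀ : ℝ, 0 < D₀ ∧ ∀ j, D j ≤ D₀ := by
    rcases isEmpty_or_nonempty ι with hemp | hnonemp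
    · exact ⟨1, one_pos, fun j => (hemp.false j).elim⟩
    · obtain ⟨j, -, hj⟩ := Finset.exists_max_image Finset.univ D Finset.univ_nonempty
      exact ⟨D j, one_pos.trans_le (hD1 j), fun i => hj i (Finset.mem_univ i)⟩
  have hGc : Continuous (fun (x : ∀ j, E j) (j : ι) => gauge (C j) (x j)) := by
    refine continuous_pi fun j => ?_
    exact (continuous_gauge (hCc j) (mem_interior_iff_mem_nhds.1 (hC0 j))).comp
      (continuous_apply j)
  obtain ⟨R, hR0, hR⟩ : ∃ R : ℝ, 0 < R ∧ ∀ x ∈ K, ∀ j, gauge (C j) (x j) ≤ R := by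
    obtain ⟨R, hR⟩ := (hcomp.image hGc).isBounded.exists_norm_le
    refine ⟨max R 1, lt_max_of_lt_right one_pos, ?_⟩
    intro x hx j
    have h1 := hR _ (Set.mem_image_of_mem _ hx)
    have h2 := norm_le_pi_norm (fun j => gauge (C j) (x j)) j
    exact ((le_abs_self _).trans (h2.trans h1)).trans (le_max_left _ _)
  set n : ℝ := (Fintype.card ι : ℝ) with hn
  have hn0 : 0 ≤ n := Nat.cast_nonneg _
  obtain ⟨δ, hδ0, hδ1, hδ⟩ : ∃ δ : ℝ, 0 < δ ∧ δ ≤ 1 ∧ δ * (2 * D₀ / η * R * n) < κ₀ := by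
    have hpos : 0 < 2 * D₀ / η * R * n + 1 := by positivity
    refine ⟨min 1 (κ₀ / (2 * D₀ / η * R * n + 1)), lt_min one_pos (by positivity),
      min_le_left _ _, ?_⟩
    have h0 : 0 < min 1 (κ₀ / (2 * D₀ / η * R * n + 1)) := lt_min one_pos (by positivity)
    have h1 : min 1 (κ₀ / (2 * D₀ / η * R * n + 1)) * (2 * D₀ / η * R * n + 1) ≤ κ₀ := by
      rw [← le_div_iff₀ hpos]
      exact min_le_right _ _
    linarith
  set V : Γ → ∀ j, E j := fun γ j => δ ^ ρ γ j • v j (c γ j) with hV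
  have hpow : ∀ γ i, 0 < δ ^ ρ γ i := fun γ i => pow_pos hδ0 _
  -- the local statement
  have hloc : ∀ x ∈ K, (fun j => gauge (C j) (x j)) ∈ G →
      (∃ t ∈ T₀, x - t ∈ interior K) ∨
      ∃ γ, ∃ ε : ℝ, 0 < ε ∧ ε ≤ 1 ∧ x - ε • V γ ∈ interior K := by
    intro x hx hxG
    set u : ι → ℝ := fun j => gauge (C j) (x j) with hu
    have hu0 : ∀ j, 0 ≤ u j := fun j => gauge_nonneg _
    have huM : u ∈ M := (hGM u hxG).1
    have huR : ∀ j, u j ≤ R := fun j => hR x hx j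
    rcases hmain u hxG x hx (fun j => rfl) with h | h
    · exact Or.inl h
    right
    choose cc hcc using fun j => hv2 j (x j)
    obtain ⟨γ, hγ1, hγ2⟩ := h cc
    obtain ⟨ε, hε0, hε1, hε2, hεu⟩ : ∃ ε : ℝ, 0 < ε ∧ ε ≤ 1 ∧ ε * (2 * D₀ / η * n) ≤ 1 ∧
        ∀ j, 0 < u j → ε ≤ u j := by
      obtain ⟨e2, h2, h2'⟩ : ∃ e : ℝ, 0 < e ∧ ∀ j, 0 < u j → e ≤ u j := by
        rcases (univ.filter fun j => 0 < u j).eq_empty_or_nonempty with he | hne
        · refine ⟨1, one_pos, fun j hj => ?_⟩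
          have : j ∈ univ.filter fun j => 0 < u j := mem_filter.2 ⟨mem_univ j, hj⟩
          rw [he] at this
          exact absurd this (notMem_empty j)
        · obtain ⟨j, hj, hb⟩ := Finset.exists_min_image _ u hne
          exact ⟨u j, (mem_filter.1 hj).2, fun j' hj' => hb j' (mem_filter.2 ⟨mem_univ j', hj'⟩)⟩
      have hpos : 0 < 2 * D₀ / η * n + 1 := by positivity
      refine ⟨min 1 (min (1 / (2 * D₀ / η * n + 1)) e2),
        lt_min one_pos (lt_min (by positivity) h2), min_le_left _ _, ?_,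
        fun j hj => ((min_le_right _ _).trans (min_le_right _ _)).trans (h2' j hj)⟩
      set e : ℝ := min 1 (min (1 / (2 * D₀ / η * n + 1)) e2) with he
      have he0 : 0 < e := lt_min one_pos (lt_min (by positivity) h2)
      have h3 : e ≤ 1 / (2 * D₀ / η * n + 1) := (min_le_right _ _).trans (min_le_left _ _)
      have h4 : e * (2 * D₀ / η * n + 1) ≤ 1 := by
        rwa [← le_div_iff₀ hpos]
      linarith
    refine ⟨γ, ε, hε0, hε1, hint _ ?_⟩
    refine gain_rank hMc hM0 hMs hη hR0 hD₀1 hδ0 hδ1 hδ huM hu0 huR (ρ γ) hγ2 hε0 hε2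
      (fun j => gauge_nonneg _) (fun j hj => ?_) fun j hj => ?_
    · have hpj := hpow γ j
      have hpj1 : δ ^ ρ γ j ≤ 1 := pow_le_one₀ hδ0.le hδ1
      have e1 : (x - ε • V γ) j = x j - (ε * δ ^ ρ γ j) • v j (c γ j) := by
        rw [Pi.sub_apply, Pi.smul_apply, hV]
        dsimp only
        rw [smul_smul]
      rw [e1]
      have hs0 : 0 < ε * δ ^ ρ γ j := mul_pos hε0 hpj
      have h1 := hcc j (ε * δ ^ ρ γ j) hs0.le (by
        refine le_trans ?_ (hεu j hj)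
        nlinarith)
      rw [← hγ1 j hj] at h1
      have h2 := mul_le_mul_of_nonneg_right (hκ₀ j) hs0.le
      have h4 : u j = gauge (C j) (x j) := rfl
      rw [h4]
      linarith
    · have hpj := hpow γ j
      have e1 : (x - ε • V γ) j = x j - (ε * δ ^ ρ γ j) • v j (c γ j) := by
        rw [Pi.sub_apply, Pi.smul_apply, hV]
        dsimp only
        rw [smul_smul]
      rw [e1]
      have hs0 : 0 < ε * δ ^ ρ γ j := mul_pos hε0 hpj
      have h1 := hv1 j (c γ j) (x j) (ε * δ ^ ρ γ j) hs0.le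
      have h2 := mul_le_mul_of_nonneg_right (hD₀ j) hs0.le
      have h4 : gauge (C j) (x j) = 0 := hj
      rw [h4] at h1
      linarith
  -- the pointwise statement
  set W : ({t // t ∈ T₀} ⊕ Γ) → ∀ j, E j := Sum.elim (fun t => t.1) V with hW
  have hpt : ∀ x ∈ K, ∃ (a : {t // t ∈ T₀} ⊕ Γ) (ε : ℝ), 0 < ε ∧ ε ≤ 1 ∧
      x - ε • W a ∈ interior K := by
    intro x hx
    set X : ι → ℝ := fun j => gauge (C j) (x j) with hX
    have hX0 : ∀ j, 0 ≤ X j := fun j => gauge_nonneg _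
    have hXM : X ∈ M := by
      rw [hK] at hx
      exact hx
    obtain ⟨Y, hY, Z, hZ, hZ0, t, ht0, ht1, hXe⟩ := hull_split hMc hGM (hG X hXM hX0)
    have hXi : ∀ i, X i = t * Y i + (1 - t) * Z i := by
      intro i
      rw [hXe]
      rfl
    have ht1' : 0 ≤ 1 - t := by linarith
    have hY0 : ∀ i, 0 ≤ Y i := (hGM Y hY).2
    have hXY : ∀ i, X i = 0 → Y i = 0 := by
      intro i hi
      have h1 := hXi i
      have h2 := mul_nonneg ht0.le (hY0 i)
      have h3 := mul_nonneg ht1' (hZ0 i)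
      have h4 : t * Y i = 0 := by linarith
      exact (mul_eq_zero.1 h4).resolve_left ht0.ne'
    set x₁ : ∀ j, E j := fun j => if X j = 0 then x j else (Y j / X j) • x j with hx₁
    set x₂ : ∀ j, E j := fun j => if X j = 0 then x j else (Z j / X j) • x j with hx₂
    have hg₁ : ∀ j, gauge (C j) (x₁ j) = Y j := by
      intro j
      simp only [hx₁]
      split_ifs with h
      · rw [hXY j h]
        exact h
      · rw [gauge_smul_of_nonneg (div_nonneg (hY0 j) (hX0 j)), smul_eq_mul]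
        exact div_mul_cancel₀ _ h
    have hg₂ : ∀ j, gauge (C j) (x₂ j) ≤ Z j := by
      intro j
      simp only [hx₂]
      split_ifs with h
      · have : gauge (C j) (x j) = 0 := h
        rw [this]
        exact hZ0 j
      · rw [gauge_smul_of_nonneg (div_nonneg (hZ0 j) (hX0 j)), smul_eq_mul]
        exact (div_mul_cancel₀ _ h).le
    have hsplit : x = t • x₁ + (1 - t) • x₂ := by
      funext j
      simp only [Pi.add_apply, Pi.smul_apply, hx₁, hx₂]
      split_ifs with h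
      · rw [← add_smul]
        simp
      · rw [smul_smul, smul_smul, ← add_smul]
        have : t * (Y j / X j) + (1 - t) * (Z j / X j) = 1 := by
          rw [← mul_div_assoc, ← mul_div_assoc, ← add_div, ← hXi]
          exact div_self h
        rw [this, one_smul]
    have hx₁K : x₁ ∈ K := by
      rw [hK]
      have e : (fun j => gauge (C j) (x₁ j)) = Y := funext hg₁
      show (fun j => gauge (C j) (x₁ j)) ∈ M
      rw [e]
      exact (hGM Y hY).1
    have hx₂K : x₂ ∈ K := by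
      rw [hK]
      show (fun j => gauge (C j) (x₂ j)) ∈ M
      refine hMs Z hZ _ fun i => ?_
      rw [Set.mem_uIcc]
      exact Or.inl ⟨gauge_nonneg _, hg₂ i⟩
    have hfin : ∃ (a : {t // t ∈ T₀} ⊕ Γ) (ε : ℝ), 0 < ε ∧ ε ≤ 1 ∧
        x₁ - ε • W a ∈ interior K := by
      rcases hloc x₁ hx₁K (by
        have e : (fun j => gauge (C j) (x₁ j)) = Y := funext hg₁
        rw [e]
        exact hY) with ⟨s, hs, h⟩ | ⟨γ, ε, h1, h2, h3⟩
      · refine ⟨Sum.inl ⟨s, hs⟩, 1, one_pos, le_rfl, ?_⟩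
        rw [one_smul]
        exact h
      · exact ⟨Sum.inr γ, ε, h1, h2, h3⟩
    obtain ⟨a, ε, h1, h2, h3⟩ := hfin
    refine ⟨a, t * ε, mul_pos ht0 h1, by nlinarith, ?_⟩
    have e : x - (t * ε) • W a = t • (x₁ - ε • W a) + (1 - t) • x₂ := by
      conv_lhs => rw [hsplit]
      rw [smul_sub, smul_smul]
      abel
    rw [e]
    exact hconv.combo_interior_self_mem_interior h3 hx₂K ht0 ht1' (by ring)
  obtain ⟨T, hT, hT2⟩ := cover_of_pointwise hconv hcomp W hpt
  refine ⟨T, hT.trans ?_, hT2⟩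
  rw [Fintype.card_sum, Fintype.card_coe]

end Pool.Agent.Zk99.HB
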