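import Mathlib
import Pool.Agent.Zk99.HB.Code

/-!
# Vectors in general position with respect to a basis
-/

set_option autoImplicit false

namespace Pool.Agent.Zk99.HB

open Finset

variable {ι : Type} [DecidableEq ι] {k : Type} [Field k]

/-- the evaluation of the monomial of degree `i` at a point of the projective line; `m - 1` is
the maximal degree -/
def evp (m i : ℕ) (o : Option k) : k := o.elim (if i + 1 = m then 1 else 0) fun a => a ^ i

/-- A polynomial of degree `< m` with `m` zeros in the projective line vanishes. -/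
lemma evp_zero {β : Type} (F : Finset β) (idx : β → ℕ) (hidx : ∀ e ∈ F, idx e < F.card)
    (hinj : ∀ e ∈ F, ∀ e' ∈ F, idx e = idx e' → e = e') (f : β → k) (Z : Finset (Option k))
    (hZ : F.card ≤ Z.card) (h : ∀ o ∈ Z, ∑ e ∈ F, f e * evp F.card (idx e) o = 0) :
    ∀ e ∈ F, f e = 0 := by
  classical
  set m := F.card with hm
  set P : Polynomial k := ∑ e ∈ F, Polynomial.C (f e) * Polynomial.X ^ (idx e) with hP
  have hcoeff : ∀ i, P.coeff i = ∑ e ∈ F, f e * (if i = idx e then 1 else 0) := by
    intro i
    rw [hP, Polynomial.finsetSum_coeff]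
    refine Finset.sum_congr rfl fun e _ => ?_
    rw [Polynomial.coeff_C_mul_X_pow]
    split_ifs <;> simp
  have hcoeff' : ∀ e ∈ F, P.coeff (idx e) = f e := by
    intro e he
    rw [hcoeff, Finset.sum_eq_single_of_mem e he]
    · simp
    · intro e' he' hne
      rw [if_neg, mul_zero]
      intro h'
      exact hne (hinj e' he' e he h'.symm)
  have hdeg : P.degree < m := by
    rw [Polynomial.degree_lt_iff_coeff_zero]
    intro i hi
    rw [hcoeff]
    refine Finset.sum_eq_zero fun e he => ?_
    rw [if_neg, mul_zero]
    intro h'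
    have := hidx e he
    omega
  have heval : ∀ a, P.eval a = ∑ e ∈ F, f e * a ^ idx e := by
    intro a
    rw [hP, Polynomial.eval_finsetSum]
    refine Finset.sum_congr rfl fun e _ => ?_
    simp
  set Z' : Finset k := Z.eraseNone with hZ'
  have hroot : ∀ a ∈ Z', P.eval a = 0 := by
    intro a ha
    rw [heval]
    exact h (some a) (Finset.mem_eraseNone.1 ha)
  have hP0 : P = 0 := by
    by_cases hn : none ∈ Z
    · have hcard : Z'.card + 1 = Z.card := by
        have h1 : insert none (Z'.map Function.Embedding.some) = Z := by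
          rw [hZ', Finset.map_some_eraseNone, Finset.insert_erase hn]
        have h2 : none ∉ Z'.map Function.Embedding.some := by simp
        rw [← h1, Finset.card_insert_of_notMem h2, Finset.card_map]
      have htop : P.coeff (m - 1) = 0 := by
        rw [hcoeff]
        refine Eq.trans ?_ (h none hn)
        refine Finset.sum_congr rfl fun e he => ?_
        have h2 := hidx e he
        have h3 : evp m (idx e) (none : Option k) = if idx e + 1 = m then 1 else 0 := rfl
        rw [h3]
        by_cases h4 : idx e + 1 = m
        · rw [if_pos h4, if_pos (by omega)]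
        · rw [if_neg h4, if_neg (by omega)]
      refine Polynomial.eq_zero_of_degree_lt_of_eval_finset_eq_zero Z' ?_ hroot
      rw [Polynomial.degree_lt_iff_coeff_zero] at hdeg ⊢
      intro i hi
      by_cases hi' : i = m - 1
      · rw [hi', htop]
      · exact hdeg i (by omega)
    · have hcard : Z'.card = Z.card := by
        have h1 : Z'.map Function.Embedding.some = Z := by
          rw [hZ', Finset.map_some_eraseNone, Finset.erase_eq_of_notMem hn]
        rw [← h1, Finset.card_map]
      refine Polynomial.eq_zero_of_degree_lt_of_eval_finset_eq_zero Z' ?_ hroot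
      refine hdeg.trans_le ?_
      rw [hcard]
      exact_mod_cast hZ
  intro e he
  rw [← hcoeff' e he, hP0, Polynomial.coeff_zero]

/-- **Vectors in general position.** -/
theorem mds [Fintype k] (B : Finset ι) (hBk : B.card ≤ Fintype.card k + 1) :
    ∃ v : Finset ι → ι → (B → k), (∀ F, LinearIndepOn k (v F) (B : Set ι)) ∧
      (∀ F, ⊤ ≤ Submodule.span k (v F '' (B : Set ι))) ∧
      ∀ S : Finset ι, S.card ≤ B.card → LinearIndepOn k (v (S \ B)) (S : Set ι) := by
  classical
  obtain ⟨x⟩ : Nonempty (B ↪ Option k) := by
    rw [Function.Embedding.nonempty_iff_card_le, Fintype.card_option, Fintype.card_coe]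
    exact hBk
  set idx : Finset ι → ι → ℕ := fun F e => if h : e ∈ F then (F.equivFin ⟨e, h⟩ : ℕ) else 0
    with hidx
  have hidx1 : ∀ (F : Finset ι), ∀ e ∈ F, idx F e < F.card := by
    intro F e he
    simp only [hidx, dif_pos he]
    exact (F.equivFin ⟨e, he⟩).2
  have hidx2 : ∀ (F : Finset ι), ∀ e ∈ F, ∀ e' ∈ F, idx F e = idx F e' → e = e' := by
    intro F e he e' he' h
    simp only [hidx, dif_pos he, dif_pos he'] at h
    have := F.equivFin.injective (Fin.ext h)
    exact congrArg Subtype.val this
  set v : Finset ι → ι → (B → k) := fun F j b => if j ∈ B then (if j = b then 1 else 0) else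
    evp F.card (idx F j) (x b) with hv
  have hvB : ∀ F, ∀ j ∈ B, ∀ b : B, v F j b = if j = b then 1 else 0 := fun F j hj b => by
    simp only [hv, if_pos hj]
  have hvN : ∀ F, ∀ j, j ∉ B → ∀ b : B, v F j b = evp F.card (idx F j) (x b) := fun F j hj b => by
    simp only [hv, if_neg hj]
  have hind : ∀ S : Finset ι, S.card ≤ B.card → LinearIndepOn k (v (S \ B)) (S : Set ι) := by
    intro S hS
    rw [linearIndepOn_finset_iff]
    intro f hf
    set F := S \ B with hF
    have hsum : ∀ b : B, ∑ e ∈ F, f e * evp F.card (idx F e) (x b) +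
        (if (b : ι) ∈ S then f b else 0) = 0 := by
      intro b
      have h1 := congrFun hf b
      rw [Finset.sum_apply] at h1
      simp only [Pi.smul_apply, smul_eq_mul, Pi.zero_apply] at h1
      have h2 : S = F ∪ (S ∩ B) := by
        rw [hF]
        ext j
        simp only [mem_union, mem_sdiff, mem_inter]
        tauto
      rw [h2, Finset.sum_union (by
        rw [hF, Finset.disjoint_left]
        intro j h3 h4
        exact (mem_sdiff.1 h3).2 (mem_inter.1 h4).2)] at h1
      refine Eq.trans ?_ h1
      congr 1
      · refine Finset.sum_congr rfl fun e he => ?_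
        rw [hvN F e (mem_sdiff.1 he).2]
      · by_cases hb : (b : ι) ∈ S
        · rw [if_pos hb, Finset.sum_eq_single_of_mem (b : ι) (mem_inter.2 ⟨hb, b.2⟩)]
          · rw [hvB F b b.2, if_pos rfl, mul_one]
          · intro j hj hne
            rw [hvB F j (mem_inter.1 hj).2, if_neg hne, mul_zero]
        · have h3 : ∑ j ∈ S ∩ B, f j * v F j b = 0 := by
            refine Finset.sum_eq_zero fun j hj => ?_
            have h4 : ¬ (j = (b : ι)) := fun h => hb (h ▸ (mem_inter.1 hj).1)
            rw [hvB F j (mem_inter.1 hj).2, if_neg h4, mul_zero]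
          rw [if_neg hb, h3]
    have hF0 : ∀ e ∈ F, f e = 0 := by
      refine evp_zero F (idx F) (hidx1 F) (hidx2 F) f
        ((univ.filter fun b : B => (b : ι) ∉ S).map x) ?_ ?_
      · rw [Finset.card_map]
        have h1 : (univ.filter fun b : B => (b : ι) ∉ S).card = (B \ S).card := by
          refine Finset.card_bij (fun b _ => (b : ι)) ?_ ?_ ?_
          · intro b hb
            exact mem_sdiff.2 ⟨b.2, (mem_filter.1 hb).2⟩
          · intro b _ b' _ h
            exact Subtype.ext h
          · intro j hj
            exact ⟨⟨j, (mem_sdiff.1 hj).1⟩, mem_filter.2 ⟨mem_univ _, (mem_sdiff.1 hj).2⟩, rfl⟩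
        rw [h1, hF]
        have h2 := Finset.card_sdiff_add_card_inter S B
        have h3 := Finset.card_sdiff_add_card_inter B S
        rw [Finset.inter_comm] at h3
        omega
      · intro o ho
        obtain ⟨b, hb, rfl⟩ := Finset.mem_map.1 ho
        have h1 := hsum b
        rwa [if_neg (mem_filter.1 hb).2, add_zero] at h1
    intro j hj
    by_cases hjB : j ∈ B
    · have h1 := hsum ⟨j, hjB⟩
      have h2 : ∑ e ∈ F, f e * evp F.card (idx F e) (x ⟨j, hjB⟩) = 0 :=
        Finset.sum_eq_zero fun e he => by rw [hF0 e he, zero_mul]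
      rw [h2, zero_add, if_pos (show ((⟨j, hjB⟩ : B) : ι) ∈ S from hj)] at h1
      exact h1
    · exact hF0 j (mem_sdiff.2 ⟨hj, hjB⟩)
  refine ⟨v, fun F => ?_, fun F => ?_, hind⟩
  · rw [linearIndepOn_finset_iff]
    intro f hf j hj
    have h1 := congrFun hf ⟨j, hj⟩
    rw [Finset.sum_apply, Finset.sum_eq_single_of_mem j hj] at h1
    · simpa [hvB F j hj] using h1
    · intro j' hj' hne
      rw [Pi.smul_apply, hvB F j' hj', if_neg hne, smul_zero]
  · intro w _
    have h1 : w = ∑ b : B, w b • v F b := by
      funext b
      rw [Finset.sum_apply, Finset.sum_eq_single b]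
      · rw [Pi.smul_apply, hvB F b b.2, if_pos rfl, smul_eq_mul, mul_one]
      · intro b' _ hne
        rw [Pi.smul_apply, hvB F b' b'.2, if_neg (fun h => hne (Subtype.ext h)), smul_zero]
      · intro h
        exact absurd (mem_univ b) h
    rw [h1]
    exact Submodule.sum_mem _ fun b _ => Submodule.smul_mem _ _
      (Submodule.subset_span ⟨b, b.2, rfl⟩)

end Pool.Agent.Zk99.HB
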