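import Mathlib
import Pool.Agent.Zk99.HB.Main
import Pool.Agent.Zk99.HB.Local
import Pool.Agent.Zk99.HB.Mds

/-!
# Sums of convex bodies: a section and a code for the remaining points
-/

set_option autoImplicit false

namespace Pool.Agent.Zk99.HB

open Finset Filter Topology
open Pool.Agent.R753 (Sol interior_of_lt body)

variable {ι : Type} [Fintype ι]

lemma exists_const {M : Set (ι → ℝ)} (hM0 : (0 : ι → ℝ) ∈ interior M) :
    ∃ η : ℝ, 0 < η ∧ (fun _ => η : ι → ℝ) ∈ M := by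
  obtain ⟨r, hr, hball⟩ := Metric.isOpen_iff.1 (isOpen_interior (s := M)) 0 hM0
  refine ⟨r / 2, by positivity, interior_subset (hball ?_)⟩
  rw [Metric.mem_ball]
  refine lt_of_le_of_lt ((dist_pi_le_iff (by positivity : (0 : ℝ) ≤ r / 2)).2 ?_)
    (by linarith : r / 2 < r)
  intro i
  rw [Real.dist_eq, Pi.zero_apply, sub_zero, abs_of_pos (by positivity)]

/-- the ranks of a codeword -/
def rk [DecidableEq ι] (B F : Finset ι) (j : ι) : ℕ := if j ∈ F then 0 else if j ∈ B then 1 else 2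

omit [Fintype ι] in
/-- The condition on the ranks. -/
lemma rank_ok [DecidableEq ι] {M : Set (ι → ℝ)} {B S : Finset ι} {Y : ι → ℝ} {η : ℝ}
    (hη : 0 < η) (hηM : (fun _ => η : ι → ℝ) ∈ M)
    (hdom : ∀ b ∈ B, Y b = 0 → ∃ z ∈ M, (∀ i, 0 ≤ z i) ∧ η ≤ z b ∧ ∀ i ∈ B, 0 < Y i → Y i ≤ z i)
    (hS : ∀ i, 0 < Y i ↔ i ∈ S) :
    ∀ j, Y j = 0 → ∃ z ∈ M, (∀ i, 0 ≤ z i) ∧ η ≤ z j ∧
      ∀ i, 0 < Y i → rk B (S \ B) j ≤ rk B (S \ B) i → Y i ≤ z i := by
  intro j hj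
  have hjS : j ∉ S := by
    rw [← hS, hj]
    exact lt_irrefl _
  have hjF : j ∉ S \ B := fun h => hjS (mem_sdiff.1 h).1
  by_cases hjB : j ∈ B
  · obtain ⟨z, hz, hz0, hzj, hzi⟩ := hdom j hjB hj
    refine ⟨z, hz, hz0, hzj, fun i hi hr => ?_⟩
    have h1 : rk B (S \ B) j = 1 := by simp only [rk, if_neg hjF, if_pos hjB]
    rw [h1] at hr
    have hiS : i ∈ S := (hS i).1 hi
    by_cases hiB : i ∈ B
    · exact hzi i hiB hi
    · have h2 : rk B (S \ B) i = 0 := by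
        simp only [rk, if_pos (mem_sdiff.2 ⟨hiS, hiB⟩)]
      omega
  · refine ⟨fun _ => η, hηM, fun _ => hη.le, le_rfl, fun i hi hr => ?_⟩
    have h1 : rk B (S \ B) j = 2 := by simp only [rk, if_neg hjF, if_neg hjB]
    rw [h1] at hr
    have hiS : i ∈ S := (hS i).1 hi
    by_cases hiB : i ∈ B
    · have hiF : i ∉ S \ B := fun h => (mem_sdiff.1 h).2 hiB
      have h2 : rk B (S \ B) i = 1 := by simp only [rk, if_neg hiF, if_pos hiB]
      omega
    · have h2 : rk B (S \ B) i = 0 := by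
        simp only [rk, if_pos (mem_sdiff.2 ⟨hiS, hiB⟩)]
      omega

/-- **Main theorem for sums.** -/
theorem section_cover [DecidableEq ι] {E : ι → Type} [∀ j, NormedAddCommGroup (E j)]
    [∀ j, NormedSpace ℝ (E j)] [∀ j, FiniteDimensional ℝ (E j)]
    (C : ∀ j, Set (E j)) (hCc : ∀ j, Convex ℝ (C j))
    (hCk : ∀ j, IsCompact (C j)) (hC0 : ∀ j, (0 : E j) ∈ interior (C j))
    (N : ι → ℕ)
    (hcov : ∀ j, ∃ T : Finset (E j), T.card ≤ N j ∧
      C j ⊆ ⋃ t ∈ T, (fun x => t + x) '' interior (C j))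
    (M : Set (ι → ℝ)) (hMc : Convex ℝ M) (hMcl : IsClosed M)
    (hM0 : (0 : ι → ℝ) ∈ interior M) (hMs : Sol M)
    (K : Set (∀ j, E j)) (hK : K = {x | (fun j => gauge (C j) (x j)) ∈ M})
    (hKb : Bornology.IsBounded K)
    (B : Finset ι) (G : Set (ι → ℝ)) (hGM : ∀ Y ∈ G, Y ∈ M ∧ ∀ i, 0 ≤ Y i)
    (hG : ∀ X ∈ M, (∀ i, 0 ≤ X i) → X ∈ convexHull ℝ G)
    (Ind : Finset ι → Prop)
    (hcode : ∃ (Γ : Type) (_ : Fintype Γ) (c : Γ → ∀ j, Fin (N j)) (Fs : Γ → Finset ι),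
      Fintype.card Γ + ∏ b ∈ B, N b ≤ ∏ j, N j ∧
      ∀ S : Finset ι, (S \ B).Nonempty → Ind S →
        ∀ c₀ : ∀ j, Fin (N j), ∃ γ, (∀ j ∈ S, c γ j = c₀ j) ∧ Fs γ = S \ B)
    (hInd : ∀ Y ∈ G, ∀ S : Finset ι, (∀ i, 0 < Y i ↔ i ∈ S) → (S \ B).Nonempty → Ind S)
    (hdom : ∀ τ : ℝ, 0 < τ → ∃ η : ℝ, 0 < η ∧ ∀ Y ∈ G, (∃ i, i ∉ B ∧ τ ≤ Y i) →
      ∀ b ∈ B, Y b = 0 → (fun i => if i = b then η else if i ∈ B then Y i else 0) ∈ M)
    (N₀ : ℕ) (hN₀ : ∃ T₀ : Finset (∀ j, E j), T₀.card ≤ N₀ ∧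
      ∀ x ∈ K, (∀ j, j ∉ B → x j = 0) → ∃ t ∈ T₀, x - t ∈ interior K) :
    Convex ℝ K ∧ IsCompact K ∧ (0 : ∀ j, E j) ∈ interior K ∧
    ∃ T : Finset (∀ j, E j), T.card ≤ N₀ + (∏ j, N j - ∏ b ∈ B, N b) ∧
      K ⊆ ⋃ t ∈ T, (fun x => t + x) '' interior K := by
  classical
  obtain ⟨Γ, _, c, Fs, hΓ, hdec⟩ := hcode
  obtain ⟨T₀, hT₀, hT₀2⟩ := hN₀
  obtain ⟨η₁, hη₁, hη₁M⟩ := exists_const hM0
  obtain ⟨hconv, hcomp, hint0, hint⟩ := body C hCc hC0 M hMc hMcl hM0 hMs K hK hKb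
  -- the number `τ`
  obtain ⟨τ, hτ, hτ2⟩ : ∃ τ : ℝ, 0 < τ ∧ ∀ x ∈ K, (∃ t ∈ T₀, x - t ∈ interior K) ∨
      ∃ i, i ∉ B ∧ τ ≤ gauge (C i) (x i) := by
    set h : (∀ j, E j) → ℝ := fun x => ∑ i ∈ Bᶜ, gauge (C i) (x i) with hh
    have hhc : Continuous h := by
      refine continuous_finsetSum _ fun i _ => ?_
      exact (continuous_gauge (hCc i) (mem_interior_iff_mem_nhds.1 (hC0 i))).comp
        (continuous_apply i)
    set L : Set (∀ j, E j) := K \ ⋃ t ∈ T₀, {x | x - t ∈ interior K} with hL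
    have hLc : IsCompact L := by
      refine hcomp.diff (isOpen_biUnion fun t _ => ?_)
      exact isOpen_interior.preimage (continuous_id.sub continuous_const)
    have hLpos : ∀ x ∈ L, 0 < h x := by
      intro x hx
      by_contra hcon
      have h0 : ∀ i ∈ Bᶜ, 0 ≤ gauge (C i) (x i) := fun i _ => gauge_nonneg _
      have h1 : h x = 0 := le_antisymm (not_lt.1 hcon) (Finset.sum_nonneg h0)
      have h2 := (Finset.sum_eq_zero_iff_of_nonneg h0).1 h1
      have h3 : ∀ j, j ∉ B → x j = 0 := by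
        intro j hj
        by_contra hne
        have h4 : 0 < gauge (C j) (x j) :=
          (gauge_pos (absorbent_nhds_zero (mem_interior_iff_mem_nhds.1 (hC0 j)))
            (NormedSpace.isVonNBounded_of_isBounded ℝ (hCk j).isBounded)).2 hne
        rw [h2 j (Finset.mem_compl.2 hj)] at h4
        exact lt_irrefl _ h4
      obtain ⟨t, ht, ht2⟩ := hT₀2 x hx.1 h3
      exact hx.2 (Set.mem_iUnion₂.2 ⟨t, ht, ht2⟩)
    obtain ⟨m, hm, hm2⟩ : ∃ m : ℝ, 0 < m ∧ ∀ x ∈ L, m ≤ h x := by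
      rcases L.eq_empty_or_nonempty with he | hne
      · refine ⟨1, one_pos, fun x hx => ?_⟩
        rw [he] at hx
        exact absurd hx (Set.notMem_empty x)
      · obtain ⟨x₀, hx₀, hmin⟩ := hLc.exists_isMinOn hne hhc.continuousOn
        exact ⟨h x₀, hLpos x₀ hx₀, fun x hx => hmin hx⟩
    refine ⟨m / (Fintype.card ι + 1), by positivity, fun x hx => ?_⟩
    by_cases hxt : ∃ t ∈ T₀, x - t ∈ interior K
    · exact Or.inl hxt
    right
    by_contra hcon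
    push Not at hcon
    have hxL : x ∈ L := by
      refine ⟨hx, fun hx2 => hxt ?_⟩
      obtain ⟨t, ht, ht2⟩ := Set.mem_iUnion₂.1 hx2
      exact ⟨t, ht, ht2⟩
    have h1 := hm2 x hxL
    have h2 : h x ≤ ∑ _i ∈ Bᶜ, m / (Fintype.card ι + 1 : ℝ) :=
      Finset.sum_le_sum fun i hi => (hcon i (Finset.mem_compl.1 hi)).le
    rw [Finset.sum_const, nsmul_eq_mul] at h2
    have h3 : ((Bᶜ.card : ℕ) : ℝ) ≤ Fintype.card ι := by
      exact_mod_cast Finset.card_le_univ _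
    have h4 : (Bᶜ.card : ℝ) * (m / (Fintype.card ι + 1)) ≤
        Fintype.card ι * (m / (Fintype.card ι + 1)) :=
      mul_le_mul_of_nonneg_right h3 (by positivity)
    have h5 : (Fintype.card ι : ℝ) * (m / (Fintype.card ι + 1)) +
        m / (Fintype.card ι + 1) = m := by
      field_simp
    have h6 : 0 < m / (Fintype.card ι + 1 : ℝ) := by positivity
    linarith
  obtain ⟨η₂, hη₂, hη₂G⟩ := hdom τ hτ
  set η : ℝ := min η₁ η₂ with hη
  have hη0 : 0 < η := lt_min hη₁ hη₂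
  have hηM : (fun _ => η : ι → ℝ) ∈ M := by
    refine hMs _ hη₁M _ fun i => ?_
    rw [Set.mem_uIcc]
    exact Or.inl ⟨hη0.le, min_le_left _ _⟩
  have hmain := scheme_cover C hCc hCk hC0 N hcov M hMc hMcl hM0 hMs K hK hKb G hGM hG
    (Γ := Γ) c (fun γ => rk B (Fs γ)) hη0 T₀ (by
      intro Y hY x hxK hx
      have hY0 : ∀ i, 0 ≤ Y i := (hGM Y hY).2
      rcases hτ2 x hxK with h | ⟨i₀, hi₀, hi₀τ⟩
      · exact Or.inl h
      right
      rw [hx i₀] at hi₀τ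
      intro c₀
      set S : Finset ι := univ.filter fun i => 0 < Y i with hS
      have hSi : ∀ i, 0 < Y i ↔ i ∈ S := fun i => by simp [hS]
      have hne : (S \ B).Nonempty := ⟨i₀, mem_sdiff.2 ⟨(hSi i₀).1 (hτ.trans_le hi₀τ), hi₀⟩⟩
      obtain ⟨γ, hc1, hc2⟩ := hdec S hne (hInd Y hY S hSi hne) c₀
      refine ⟨γ, fun j hj => hc1 j ((hSi j).1 hj), ?_⟩
      show ∀ j, Y j = 0 → ∃ z ∈ M, (∀ i, 0 ≤ z i) ∧ η ≤ z j ∧
        ∀ i, 0 < Y i → rk B (Fs γ) j ≤ rk B (Fs γ) i → Y i ≤ z i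
      rw [hc2]
      refine rank_ok hη0 hηM (fun b hb hYb => ?_) hSi
      refine ⟨_, hη₂G Y hY ⟨i₀, hi₀, hi₀τ⟩ b hb hYb, fun i => ?_, ?_, fun i hi hYi => ?_⟩
      · split_ifs
        · exact hη₂.le
        · exact hY0 i
        · exact le_rfl
      · rw [if_pos rfl]
        exact min_le_right _ _
      · have hib : i ≠ b := fun h => by
          rw [h, hYb] at hYi
          exact lt_irrefl _ hYi
        rw [if_neg hib, if_pos hi])
  refine ⟨hmain.1, hmain.2.1, hmain.2.2.1, ?_⟩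
  obtain ⟨T, hT, hT2⟩ := hmain.2.2.2
  refine ⟨T, hT.trans ?_, hT2⟩
  have : Fintype.card Γ ≤ ∏ j, N j - ∏ b ∈ B, N b := by omega
  exact add_le_add hT₀ this

/-- A section which is a box. -/
theorem box_section [DecidableEq ι] {E : ι → Type} [∀ j, NormedAddCommGroup (E j)]
    [∀ j, NormedSpace ℝ (E j)]
    (C : ∀ j, Set (E j)) (hCc : ∀ j, Convex ℝ (C j))
    (hCk : ∀ j, IsCompact (C j)) (hC0 : ∀ j, (0 : E j) ∈ interior (C j))
    (N : ι → ℕ)
    (hcov : ∀ j, ∃ T : Finset (E j), T.card ≤ N j ∧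
      C j ⊆ ⋃ t ∈ T, (fun x => t + x) '' interior (C j))
    (M : Set (ι → ℝ)) (hMc : Convex ℝ M)
    (hM0 : (0 : ι → ℝ) ∈ interior M) (hMs : Sol M)
    (K : Set (∀ j, E j)) (hK : K = {x | (fun j => gauge (C j) (x j)) ∈ M})
    (hint : ∀ y : ∀ j, E j, (fun j => gauge (C j) (y j)) ∈ interior M → y ∈ interior K)
    (B : Finset ι) (y : ι → ℝ) (hy : y ∈ M) (hyB : ∀ b ∈ B, ∀ X ∈ M, X b ≤ y b) :
    ∃ T₀ : Finset (∀ j, E j), T₀.card ≤ ∏ b ∈ B, N b ∧
      ∀ x ∈ K, (∀ j, j ∉ B → x j = 0) → ∃ t ∈ T₀, x - t ∈ interior K := by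
  classical
  choose T hT hT2 using hcov
  obtain ⟨η, hη, hηM⟩ := exists_const hM0
  have hypos : ∀ b ∈ B, 0 < y b := fun b hb => hη.trans_le (hyB b hb _ hηM)
  set f : (∀ b : B, {t // t ∈ T b}) → (∀ j, E j) := fun t j =>
    if h : j ∈ B then y j • (t ⟨j, h⟩ : E j) else 0 with hf
  refine ⟨univ.image f, ?_, ?_⟩
  · refine Finset.card_image_le.trans ?_
    rw [Finset.card_univ, Fintype.card_pi]
    simp only [Fintype.card_coe]
    rw [Finset.prod_coe_sort B (fun b => (T b).card)]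
    exact Finset.prod_le_prod' fun b _ => hT b
  intro x hx hxB
  have hXM : (fun j => gauge (C j) (x j)) ∈ M := by
    rw [hK] at hx
    exact hx
  have hb : ∀ b : B, ∃ t : {t // t ∈ T b}, gauge (C b) (x b - y b • (t : E b)) < y b := by
    intro b
    have hyb := hypos b b.2
    have h1 : gauge (C b) ((y b)⁻¹ • x b) ≤ 1 := by
      rw [gauge_smul_of_nonneg (inv_nonneg.2 hyb.le), smul_eq_mul, inv_mul_le_iff₀ hyb, mul_one]
      exact hyB b b.2 _ hXM
    have hnh : C b ∈ 𝓝 (0 : E b) := mem_interior_iff_mem_nhds.1 (hC0 b)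
    have h2 : (y b)⁻¹ • x b ∈ C b := by
      have := (gauge_le_one_iff_mem_closure (hCc b) hnh).1 h1
      rwa [(hCk b).isClosed.closure_eq] at this
    obtain ⟨t, ht, z, hz, hzt⟩ := Set.mem_iUnion₂.1 (hT2 b h2)
    refine ⟨⟨t, ht⟩, ?_⟩
    have h3 : gauge (C b) z < 1 := (gauge_lt_one_iff_mem_interior (hCc b) hnh).2 hz
    have h4 : x b - y b • t = y b • z := by
      have h5 : (fun x => t + x) z = (y b)⁻¹ • x b := hzt
      have h6 : t + z = (y b)⁻¹ • x b := h5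
      have h7 : y b • (t + z) = x b := by
        rw [h6, smul_smul, mul_inv_cancel₀ hyb.ne', one_smul]
      rw [← h7, smul_add]
      abel
    show gauge (C b) (x b - y b • t) < y b
    rw [h4, gauge_smul_of_nonneg hyb.le, smul_eq_mul]
    nlinarith
  choose t ht using hb
  refine ⟨f t, Finset.mem_image_of_mem _ (mem_univ _), hint _ ?_⟩
  set Y : ι → ℝ := fun j => gauge (C j) ((x - f t) j) with hY
  have hYB : ∀ b ∈ B, Y b < y b := by
    intro b hb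
    have h1 := ht ⟨b, hb⟩
    have h2 : (x - f t) b = x b - y b • (t ⟨b, hb⟩ : E b) := by
      simp only [Pi.sub_apply, hf, dif_pos hb]
    show gauge (C b) ((x - f t) b) < y b
    rw [h2]
    exact h1
  have hYN : ∀ j, j ∉ B → Y j = 0 := by
    intro j hj
    have h2 : (x - f t) j = 0 := by
      simp only [Pi.sub_apply, hf, dif_neg hj, sub_zero]
      exact hxB j hj
    show gauge (C j) ((x - f t) j) = 0
    rw [h2, gauge_zero]
  -- a number `s < 1`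
  obtain ⟨s, hs0, hs1, hs⟩ : ∃ s : ℝ, 0 < s ∧ s < 1 ∧ ∀ b ∈ B, Y b ≤ s * y b := by
    have key : ∀ b ∈ B, ∀ᶠ s : ℝ in 𝓝[<] 1, Y b ≤ s * y b := by
      intro b hb
      have h1 : Tendsto (fun s : ℝ => s * y b) (𝓝[<] 1) (𝓝 (1 * y b)) := by
        have : Tendsto (fun s : ℝ => s * y b) (𝓝 1) (𝓝 (1 * y b)) :=
          (continuous_id.mul continuous_const).tendsto 1
        exact this.mono_left nhdsWithin_le_nhds
      rw [one_mul] at h1
      exact (h1.eventually (lt_mem_nhds (hYB b hb))).mono fun s hs => hs.le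
    have key2 : ∀ᶠ s : ℝ in 𝓝[<] 1, ∀ b ∈ B, Y b ≤ s * y b :=
      (Filter.eventually_all_finset B).2 key
    obtain ⟨s, hs, hs2⟩ := (key2.and (Ioo_mem_nhdsLT (show (0 : ℝ) < 1 by norm_num))).exists
    exact ⟨s, hs2.1, hs2.2, hs⟩
  set y' : ι → ℝ := fun i => if i ∈ B then y i else 0 with hy'
  have hy'M : y' ∈ M := by
    refine hMs y hy _ fun i => ?_
    simp only [hy']
    split_ifs
    · exact Set.right_mem_uIcc
    · exact Set.left_mem_uIcc
  have hp : (1 - s) • (fun _ => η : ι → ℝ) + s • y' ∈ M :=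
    hMc hηM hy'M (by linarith) hs0.le (by ring)
  refine interior_of_lt hMc hM0 hMs hp (fun j => gauge_nonneg _) fun j => ?_
  simp only [Pi.add_apply, Pi.smul_apply, smul_eq_mul]
  have h1 : 0 < (1 - s) * η := mul_pos (by linarith) hη
  by_cases hj : j ∈ B
  · have h2 := hs j hj
    have h3 : y' j = y j := by simp only [hy', if_pos hj]
    rw [h3]
    show Y j < _
    linarith
  · have h3 : y' j = 0 := by simp only [hy', if_neg hj]
    rw [h3, mul_zero, add_zero]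
    show Y j < _
    rw [hYN j hj]
    exact h1

end Pool.Agent.Zk99.HB
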