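import Mathlib
import Pool.Agent.Zk99.HB.Section
import Pool.Agent.R753.Three

/-!
# Sections by coordinate subspaces
-/

set_option autoImplicit false

namespace Pool.Agent.Zk99.HB

open Finset Filter Topology
open Pool.Agent.R753 (Sol interior_of_lt body)

variable {ι : Type} [DecidableEq ι]

/-- extension by zero -/
def ext0 {E : ι → Type} [∀ j, Zero (E j)] (B : Finset ι) (z : ∀ b : B, E b) : ∀ j, E j :=
  fun j => if h : j ∈ B then z ⟨j, h⟩ else 0

/-- Coverings of the section are coverings of the section by translates of the interior of the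
whole body. -/
lemma section_lift [Fintype ι] {E : ι → Type} [∀ j, NormedAddCommGroup (E j)]
    [∀ j, NormedSpace ℝ (E j)]
    {K : Set (∀ j, E j)} (hK : Convex ℝ K) (hK0 : (0 : ∀ j, E j) ∈ interior K) (B : Finset ι)
    {N₀ : ℕ} (h : ∃ T : Finset (∀ b : B, E b), T.card ≤ N₀ ∧
      {z : ∀ b : B, E b | ext0 B z ∈ K} ⊆
        ⋃ t ∈ T, (fun x => t + x) '' interior {z : ∀ b : B, E b | ext0 B z ∈ K}) :
    ∃ T₀ : Finset (∀ j, E j), T₀.card ≤ N₀ ∧
      ∀ x ∈ K, (∀ j, j ∉ B → x j = 0) → ∃ t ∈ T₀, x - t ∈ interior K := by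
  classical
  obtain ⟨T, hT, hT2⟩ := h
  set KB : Set (∀ b : B, E b) := {z : ∀ b : B, E b | ext0 B z ∈ K} with hKB
  have hint : ∀ w ∈ interior KB, ext0 B w ∈ interior K := by
    intro w hw
    obtain ⟨s, hs1, hs⟩ : ∃ s : ℝ, 1 < s ∧ s • w ∈ KB := by
      have h1 : Tendsto (fun s : ℝ => s • w) (𝓝[>] 1) (𝓝 ((1 : ℝ) • w)) := by
        have : Tendsto (fun s : ℝ => s • w) (𝓝 1) (𝓝 ((1 : ℝ) • w)) :=
          (continuous_id.smul continuous_const).tendsto 1
        exact this.mono_left nhdsWithin_le_nhds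
      rw [one_smul] at h1
      have h2 := h1.eventually (mem_interior_iff_mem_nhds.1 hw)
      obtain ⟨s, hs, hs2⟩ := (h2.and self_mem_nhdsWithin).exists
      exact ⟨s, hs2, hs⟩
    have hs0 : 0 < s := one_pos.trans hs1
    have h3 : ext0 B (s • w) ∈ K := hs
    have h4 := hK.combo_interior_self_mem_interior hK0 h3
      (show 0 < 1 - s⁻¹ by
        have := inv_lt_one_of_one_lt₀ hs1
        linarith) (inv_nonneg.2 hs0.le) (by ring)
    have h5 : (1 - s⁻¹) • (0 : ∀ j, E j) + s⁻¹ • ext0 B (s • w) = ext0 B w := by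
      rw [smul_zero, zero_add]
      funext j
      simp only [Pi.smul_apply, ext0]
      split_ifs with hj
      · rw [smul_smul, inv_mul_cancel₀ hs0.ne', one_smul]
      · rw [smul_zero]
    rwa [h5] at h4
  refine ⟨T.image (ext0 B), Finset.card_image_le.trans hT, fun x hx hxB => ?_⟩
  have hxz : ext0 B (fun b : B => x b) = x := by
    funext j
    simp only [ext0]
    split_ifs with hj
    · rfl
    · exact (hxB j hj).symm
  have h1 : (fun b : B => x b) ∈ KB := by
    show ext0 B (fun b : B => x b) ∈ K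
    rw [hxz]
    exact hx
  obtain ⟨t, ht, w, hw, htw⟩ := Set.mem_iUnion₂.1 (hT2 h1)
  refine ⟨ext0 B t, Finset.mem_image_of_mem _ ht, ?_⟩
  have h2 : x - ext0 B t = ext0 B w := by
    have h3 : t + w = fun b : B => x b := htw
    rw [← hxz, ← h3]
    funext j
    simp only [Pi.sub_apply, ext0]
    split_ifs with hj
    · simp
    · simp
  rw [h2]
  exact hint w hw

/-- **Three-dimensional sections.** -/
theorem three_section [Fintype ι] {E : ι → Type} [∀ j, NormedAddCommGroup (E j)]
    [∀ j, NormedSpace ℝ (E j)] [∀ j, FiniteDimensional ℝ (E j)]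
    (C : ∀ j, Set (E j)) (hCc : ∀ j, Convex ℝ (C j))
    (hCk : ∀ j, IsCompact (C j)) (hC0 : ∀ j, (0 : E j) ∈ interior (C j))
    (N : ι → ℕ) (hN : ∀ j, 2 ≤ N j)
    (hcov : ∀ j, ∃ T : Finset (E j), T.card ≤ N j ∧
      C j ⊆ ⋃ t ∈ T, (fun x => t + x) '' interior (C j))
    (M : Set (ι → ℝ)) (hMc : Convex ℝ M) (hMcl : IsClosed M)
    (hM0 : (0 : ι → ℝ) ∈ interior M) (hMs : Sol M)
    (K : Set (∀ j, E j)) (hK : K = {x | (fun j => gauge (C j) (x j)) ∈ M})
    (hKb : Bornology.IsBounded K) (B : Finset ι) (hB : B.card = 3) :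
    ∃ T₀ : Finset (∀ j, E j), T₀.card ≤ ∏ b ∈ B, N b ∧
      ∀ x ∈ K, (∀ j, j ∉ B → x j = 0) → ∃ t ∈ T₀, x - t ∈ interior K := by
  classical
  obtain ⟨hconv, hcomp, hint0, hint⟩ := body C hCc hC0 M hMc hMcl hM0 hMs K hK hKb
  set e : Fin 3 ≃ B := (Finset.equivFinOfCardEq hB).symm with he
  set L : (∀ i : Fin 3, E (e i)) ≃L[ℝ] (∀ b : B, E b) :=
    ContinuousLinearEquiv.piCongrLeft ℝ (fun b : B => E b) e with hL
  have hLe : ∀ (z : ∀ i : Fin 3, E (e i)) (i : Fin 3), L z (e i) = z i := fun z i =>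
    Equiv.piCongrLeft_apply_apply (fun b : B => E b) e z i
  -- the profile set
  set A : (Fin 3 → ℝ) → ι → ℝ := fun m j => if h : j ∈ B then m (e.symm ⟨j, h⟩) else 0 with hA
  have hAc : Continuous A := by
    refine continuous_pi fun j => ?_
    by_cases h : j ∈ B
    · simp only [hA, dif_pos h]
      exact continuous_apply _
    · simp only [hA, dif_neg h]
      exact continuous_const
  have hAl : ∀ (a b : ℝ) (x y : Fin 3 → ℝ), A (a • x + b • y) = a • A x + b • A y := by
    intro a b x y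
    funext j
    simp only [hA, Pi.add_apply, Pi.smul_apply, smul_eq_mul]
    split_ifs <;> simp
  have hA0 : A 0 = 0 := by
    funext j
    simp only [hA]
    split_ifs <;> rfl
  set K3 : Set (∀ i : Fin 3, E (e i)) := {z | ext0 B (L z) ∈ K} with hK3
  have hgz : ∀ z : ∀ i : Fin 3, E (e i), (fun j => gauge (C j) (ext0 B (L z) j)) =
      A (fun i => gauge (C (e i)) (z i)) := by
    intro z
    funext j
    simp only [hA, ext0]
    by_cases h : j ∈ B
    · rw [dif_pos h, dif_pos h]
      obtain ⟨i, hi⟩ := e.surjective ⟨j, h⟩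
      have h1 : e.symm ⟨j, h⟩ = i := by rw [← hi, Equiv.symm_apply_apply]
      rw [h1]
      have h2 : ∀ b : B, b = e i → gauge (C b) (L z b) = gauge (C (e i)) (z i) := by
        rintro b rfl
        rw [hLe]
      exact h2 ⟨j, h⟩ hi.symm
    · rw [dif_neg h, dif_neg h, gauge_zero]
  have hK3' : K3 = {z | (fun i => gauge (C (e i)) (z i)) ∈ A ⁻¹' M} := by
    ext z
    simp only [hK3, Set.mem_ofPred_eq, Set.mem_preimage]
    rw [← hgz z, hK]
    rfl
  have hnorm : ∀ (z : ∀ i : Fin 3, E (e i)) (i : Fin 3), ‖z i‖ ≤ ‖ext0 B (L z)‖ := by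
    intro z i
    have h1 : ext0 B (L z) (e i) = z i := by
      simp only [ext0, dif_pos (e i).2]
      exact hLe z i
    rw [← h1]
    exact norm_le_pi_norm (ext0 B (L z)) ((e i : B) : ι)
  have hKb3 : Bornology.IsBounded K3 := by
    obtain ⟨R, hR⟩ := hKb.exists_norm_le
    refine isBounded_iff_forall_norm_le.2 ⟨max R 0, fun z hz => ?_⟩
    refine (pi_norm_le_iff_of_nonneg (le_max_right _ _)).2 fun i => ?_
    exact ((hnorm z i).trans (hR _ hz)).trans (le_max_left _ _)
  have h3 := Pool.Agent.R753.Three.three (E := fun i : Fin 3 => E (e i))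
    (fun i => C (e i)) (fun i => hCc _) (fun i => hCk _)
    (fun i => hC0 _) (fun i => N (e i)) (fun i => hN _) (fun i => hcov _) (A ⁻¹' M)
    (fun x hx y hy a b ha hb hab => by
      rw [Set.mem_preimage] at hx hy ⊢
      rw [hAl]
      exact hMc hx hy ha hb hab)
    (hMcl.preimage hAc)
    (mem_interior.2 ⟨A ⁻¹' interior M, Set.preimage_mono interior_subset,
      isOpen_interior.preimage hAc, by rw [Set.mem_preimage, hA0]; exact hM0⟩)
    (fun x hx y hy => by
      rw [Set.mem_preimage] at hx ⊢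
      refine hMs _ hx _ fun j => ?_
      simp only [hA]
      split_ifs with h
      · exact hy _
      · exact Set.left_mem_uIcc)
    K3 hK3' hKb3
  obtain ⟨T3, hT3, hT32⟩ := h3.2.2.2
  have hcard : ∏ i : Fin 3, N (e i) = ∏ b ∈ B, N b := by
    rw [← Finset.prod_coe_sort B N]
    exact Equiv.prod_comp e (fun b : B => N b)
  refine section_lift hconv hint0 B ⟨T3.image L, ?_, ?_⟩
  · refine Finset.card_image_le.trans (hT3.trans ?_)
    exact hcard.le
  · intro z hz
    have hpre : {z : ∀ b : B, E b | ext0 B z ∈ K} = L.symm ⁻¹' K3 := by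
      ext z
      simp only [Set.mem_ofPred_eq, Set.mem_preimage, hK3, ContinuousLinearEquiv.apply_symm_apply]
    have hz3 : L.symm z ∈ K3 := by
      rw [hpre] at hz
      exact hz
    obtain ⟨t, ht, w, hw, htw⟩ := Set.mem_iUnion₂.1 (hT32 hz3)
    refine Set.mem_iUnion₂.2 ⟨L t, Finset.mem_image_of_mem _ ht, L w, ?_, ?_⟩
    · rw [hpre]
      have h4 : L w ∈ L.symm.toHomeomorph ⁻¹' interior K3 := by
        rw [Set.mem_preimage]
        show L.symm (L w) ∈ interior K3
        rw [ContinuousLinearEquiv.symm_apply_apply]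
        exact hw
      rw [L.symm.toHomeomorph.preimage_interior] at h4
      exact h4
    · show L t + L w = z
      have h5 : t + w = L.symm z := htw
      rw [← map_add, h5, ContinuousLinearEquiv.apply_symm_apply]

end Pool.Agent.Zk99.HB
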