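import Mathlib
import Pool.Agent.Zk99.HB.Lift
import Pool.Agent.N148.HD.Cor

/-!
# Bodies spanned by coordinate sections
-/

set_option autoImplicit false

namespace Pool.Agent.Zk99.HB

open Finset Filter Topology
open Pool.Agent.R753 (Sol interior_of_lt body)
open Pool.Agent.N148.HD (Unc unc_le sol_of_unc interval_cov)

lemma surj_of_card {k : Type} [Fintype k] [Nonempty k] {n : ℕ} (h : Fintype.card k ≤ n) :
    ∃ p : Fin n → k, Function.Surjective p := by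
  obtain ⟨f⟩ : Nonempty (k ↪ Fin n) := by
    rw [Function.Embedding.nonempty_iff_card_le, Fintype.card_fin]
    exact h
  exact ⟨Function.invFun f, Function.invFun_surjective f.injective⟩

/-- a code for the sets with the property `Ind` -/
def HasCode {ι : Type} [Fintype ι] [DecidableEq ι] (N : ι → ℕ) (B : Finset ι)
    (Ind : Finset ι → Prop) : Prop :=
  ∃ (Γ : Type) (_ : Fintype Γ) (c : Γ → ∀ j, Fin (N j)) (Fs : Γ → Finset ι),
    Fintype.card Γ + ∏ b ∈ B, N b ≤ ∏ j, N j ∧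
    ∀ S : Finset ι, (S \ B).Nonempty → Ind S →
      ∀ c₀ : ∀ j, Fin (N j), ∃ γ, (∀ j ∈ S, c γ j = c₀ j) ∧ Fs γ = S \ B

variable {ι : Type} [Fintype ι] [DecidableEq ι]

/-- the code of a linear matroid -/
lemma code_linear {k : Type} [Field k] [Fintype k] {W : Type} [AddCommGroup W]
    [Module k W] (N : ι → ℕ) (hk : ∀ j, Fintype.card k ≤ N j) (B : Finset ι) (v : ι → W)
    (hB : LinearIndepOn k v (B : Set ι)) (hsp : ⊤ ≤ Submodule.span k (v '' (B : Set ι))) :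
    HasCode N B fun S => LinearIndepOn k v (S : Set ι) := by
  choose p hp using fun j => surj_of_card (hk j)
  exact local_code N p hp B (fun _ => v) (fun _ => hB) (fun _ => hsp)

/-- the code for the sets with at most `|B|` elements -/
lemma code_card {k : Type} [Field k] [Fintype k]
    (N : ι → ℕ) (hk : ∀ j, Fintype.card k ≤ N j) (B : Finset ι)
    (hB : B.card ≤ Fintype.card k + 1) : HasCode N B fun S => S.card ≤ B.card := by
  choose p hp using fun j => surj_of_card (hk j)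
  obtain ⟨v, hv1, hv2, hv3⟩ := mds (k := k) B hB
  obtain ⟨Γ, i, c, Fs, h1, h2⟩ := local_code N p hp B v hv1 hv2
  exact ⟨Γ, i, c, Fs, h1, fun S hS hc c₀ => h2 S hS (hv3 S hc) c₀⟩

/-- the code for the sets with at most `|B|` elements, for a prime power -/
lemma code_card_pow (N : ι → ℕ) {q : ℕ} (hq : IsPrimePow q) (hk : ∀ j, q ≤ N j) (B : Finset ι)
    (hB : B.card ≤ q + 1) : HasCode N B fun S => S.card ≤ B.card := by
  obtain ⟨p, m, hp, hm, rfl⟩ := (isPrimePow_nat_iff q).1 hq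
  have : Fact p.Prime := ⟨hp⟩
  have : Finite (GaloisField p m) := Nat.finite_of_card_ne_zero (by
    rw [GaloisField.card p m hm.ne']
    exact (pow_pos hp.pos m).ne')
  have : Fintype (GaloisField p m) := Fintype.ofFinite _
  have hcard : Fintype.card (GaloisField p m) = p ^ m := by
    rw [← Nat.card_eq_fintype_card, GaloisField.card p m hm.ne']
  exact code_card (k := GaloisField p m) N (fun j => hcard.le.trans (hk j)) B (by rwa [hcard])

/-- the enlargement property -/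
def Enl (M G : Set (ι → ℝ)) (B : Finset ι) : Prop :=
  ∀ τ : ℝ, 0 < τ → ∃ η : ℝ, 0 < η ∧ ∀ Y ∈ G, (∃ i, i ∉ B ∧ τ ≤ Y i) →
    ∀ b ∈ B, Y b = 0 → (fun i => if i = b then η else if i ∈ B then Y i else 0) ∈ M

lemma enl_of_box {M G : Set (ι → ℝ)} (hM0 : (0 : ι → ℝ) ∈ interior M) (hMs : Sol M)
    (hGM : ∀ Y ∈ G, Y ∈ M ∧ ∀ i, 0 ≤ Y i) {B : Finset ι} {y : ι → ℝ} (hy : y ∈ M)
    (hyB : ∀ b ∈ B, ∀ X ∈ M, X b ≤ y b) : Enl M G B := by
  obtain ⟨η₁, hη₁, hη₁M⟩ := exists_const hM0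
  have hypos : ∀ b ∈ B, η₁ ≤ y b := fun b hb => hyB b hb _ hη₁M
  set y' : ι → ℝ := fun i => if i ∈ B then y i else 0 with hy'
  have hy'K : y' ∈ M := by
    refine hMs y hy _ fun i => ?_
    simp only [hy']
    split_ifs
    · exact Set.right_mem_uIcc
    · exact Set.left_mem_uIcc
  intro τ _
  refine ⟨η₁, hη₁, fun Y hY _ b hb hYb => ?_⟩
  refine hMs y' hy'K _ fun i => ?_
  rw [Set.mem_uIcc]
  left
  by_cases h1 : i = b
  · rw [if_pos h1, h1]
    have h3 : y' b = y b := by simp only [hy', if_pos hb]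
    rw [h3]
    exact ⟨hη₁.le, hypos b hb⟩
  · rw [if_neg h1]
    by_cases h2 : i ∈ B
    · have h3 : y' i = y i := by simp only [hy', if_pos h2]
      rw [if_pos h2, h3]
      exact ⟨(hGM Y hY).2 i, hyB i h2 Y (hGM Y hY).1⟩
    · have h3 : y' i = 0 := by simp only [hy', if_neg h2]
      rw [if_neg h2, h3]
      exact ⟨le_rfl, le_rfl⟩

/-- **The theorem for sums.** -/
theorem sum_all {E : ι → Type} [∀ j, NormedAddCommGroup (E j)]
    [∀ j, NormedSpace ℝ (E j)] [∀ j, FiniteDimensional ℝ (E j)]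
    (C : ∀ j, Set (E j)) (hCc : ∀ j, Convex ℝ (C j))
    (hCk : ∀ j, IsCompact (C j)) (hC0 : ∀ j, (0 : E j) ∈ interior (C j))
    (N : ι → ℕ) (hN : ∀ j, 2 ≤ N j)
    (hcov : ∀ j, ∃ T : Finset (E j), T.card ≤ N j ∧
      C j ⊆ ⋃ t ∈ T, (fun x => t + x) '' interior (C j))
    (M : Set (ι → ℝ)) (hMc : Convex ℝ M) (hMcl : IsClosed M)
    (hM0 : (0 : ι → ℝ) ∈ interior M) (hMs : Sol M)
    (K : Set (∀ j, E j)) (hK : K = {x | (fun j => gauge (C j) (x j)) ∈ M})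
    (hKb : Bornology.IsBounded K)
    (B : Finset ι) (G : Set (ι → ℝ)) (hGM : ∀ Y ∈ G, Y ∈ M ∧ ∀ i, 0 ≤ Y i)
    (hG : ∀ X ∈ M, (∀ i, 0 ≤ X i) → X ∈ convexHull ℝ G)
    (Ind : Finset ι → Prop) (hcode : HasCode N B Ind)
    (hInd : ∀ Y ∈ G, ∀ S : Finset ι, (∀ i, 0 < Y i ↔ i ∈ S) → (S \ B).Nonempty → Ind S) :
    Convex ℝ K ∧ IsCompact K ∧ (0 : ∀ j, E j) ∈ interior K ∧
    (Enl M G B → (∀ N₀ : ℕ, (∃ T : Finset (∀ b : B, E b), T.card ≤ N₀ ∧
        {z : ∀ b : B, E b | ext0 B z ∈ K} ⊆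
          ⋃ t ∈ T, (fun x => t + x) '' interior {z : ∀ b : B, E b | ext0 B z ∈ K}) →
        ∃ T : Finset (∀ j, E j), T.card ≤ N₀ + (∏ j, N j - ∏ b ∈ B, N b) ∧
          K ⊆ ⋃ t ∈ T, (fun x => t + x) '' interior K) ∧
      (B.card = 3 → ∃ T : Finset (∀ j, E j), T.card ≤ ∏ j, N j ∧
          K ⊆ ⋃ t ∈ T, (fun x => t + x) '' interior K)) ∧
    ((∃ y ∈ M, ∀ b ∈ B, ∀ X ∈ M, X b ≤ y b) → ∃ T : Finset (∀ j, E j), T.card ≤ ∏ j, N j ∧
          K ⊆ ⋃ t ∈ T, (fun x => t + x) '' interior K) := by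
  obtain ⟨hconv, hcomp, hint0, hint⟩ := body C hCc hC0 M hMc hMcl hM0 hMs K hK hKb
  have hprod : ∏ b ∈ B, N b ≤ ∏ j, N j :=
    Finset.prod_le_univ_prod_of_one_le' (fun j => one_le_two.trans (hN j))
  have key : Enl M G B → ∀ N₀ : ℕ, (∃ T₀ : Finset (∀ j, E j), T₀.card ≤ N₀ ∧
      ∀ x ∈ K, (∀ j, j ∉ B → x j = 0) → ∃ t ∈ T₀, x - t ∈ interior K) →
      ∃ T : Finset (∀ j, E j), T.card ≤ N₀ + (∏ j, N j - ∏ b ∈ B, N b) ∧
          K ⊆ ⋃ t ∈ T, (fun x => t + x) '' interior K := fun he N₀ h =>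
    (section_cover C hCc hCk hC0 N hcov M hMc hMcl hM0 hMs K hK hKb B G hGM hG Ind hcode hInd he
      N₀ h).2.2.2
  have key2 : Enl M G B → (∃ T₀ : Finset (∀ j, E j), T₀.card ≤ ∏ b ∈ B, N b ∧
      ∀ x ∈ K, (∀ j, j ∉ B → x j = 0) → ∃ t ∈ T₀, x - t ∈ interior K) →
      ∃ T : Finset (∀ j, E j), T.card ≤ ∏ j, N j ∧
          K ⊆ ⋃ t ∈ T, (fun x => t + x) '' interior K := by
    intro he h
    obtain ⟨T, hT, hT2⟩ := key he _ h
    exact ⟨T, hT.trans (by omega), hT2⟩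
  refine ⟨hconv, hcomp, hint0, fun he => ⟨fun N₀ h => ?_, fun h3 => ?_⟩, ?_⟩
  · exact key he N₀ (section_lift hconv hint0 B h)
  · exact key2 he (three_section C hCc hCk hC0 N hN hcov M hMc hMcl hM0 hMs K hK hKb B h3)
  · rintro ⟨y, hy, hyB⟩
    exact key2 (enl_of_box hM0 hMs hGM hy hyB)
      (box_section C hCc hCk hC0 N hcov M hMc hM0 hMs K hK hint B y hy hyB)

/-- the elementary facts on unconditional bodies -/
lemma unc_setup {K : Set (ι → ℝ)} (hK : Convex ℝ K) (hKi : (interior K).Nonempty) (hu : Unc K) :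
    (0 : ι → ℝ) ∈ interior K ∧ Sol K ∧
      K = {x : ι → ℝ | (fun j => gauge (Metric.closedBall (0 : ℝ) 1) (x j)) ∈ K} := by
  refine ⟨?_, sol_of_unc hK hu, ?_⟩
  · obtain ⟨x, hx⟩ := hKi
    have h1 : -x ∈ K := hu x (interior_subset hx) _ fun i => by rw [Pi.neg_apply, abs_neg]
    have h2 := hK.combo_interior_self_mem_interior hx h1 (show (0 : ℝ) < 1 / 2 by norm_num)
      (show (0 : ℝ) ≤ 1 / 2 by norm_num) (by norm_num)
    rwa [smul_neg, add_neg_cancel] at h2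
  · ext x
    have e : (fun j => gauge (Metric.closedBall (0 : ℝ) 1) (x j)) = fun j => |x j| := by
      funext j
      rw [gauge_closedBall zero_le_one, div_one, Real.norm_eq_abs]
    rw [Set.mem_ofPred_eq, e]
    exact ⟨fun h => hu x h _ fun i => abs_abs _, fun h => hu _ h _ fun i => (abs_abs _).symm⟩

/-- **The theorem for unconditional bodies.** -/
theorem unc_all (K : Set (ι → ℝ)) (hK : Convex ℝ K) (hKc : IsCompact K)
    (hKi : (interior K).Nonempty) (hu : Unc K)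
    (B : Finset ι) (G : Set (ι → ℝ)) (hGM : ∀ Y ∈ G, Y ∈ K ∧ ∀ i, 0 ≤ Y i)
    (hG : ∀ X ∈ K, (∀ i, 0 ≤ X i) → X ∈ convexHull ℝ G)
    (Ind : Finset ι → Prop) (hcode : HasCode (fun _ : ι => 2) B Ind)
    (hInd : ∀ Y ∈ G, ∀ S : Finset ι, (∀ i, 0 < Y i ↔ i ∈ S) → (S \ B).Nonempty → Ind S) :
    (Enl K G B → (∀ N₀ : ℕ, (∃ T : Finset (B → ℝ), T.card ≤ N₀ ∧
        {z : B → ℝ | ext0 B z ∈ K} ⊆
          ⋃ t ∈ T, (fun x => t + x) '' interior {z : B → ℝ | ext0 B z ∈ K}) →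
        ∃ T : Finset (ι → ℝ), T.card ≤ N₀ + (2 ^ Fintype.card ι - 2 ^ B.card) ∧
          K ⊆ ⋃ t ∈ T, (fun x => t + x) '' interior K) ∧
      (B.card = 3 → ∃ T : Finset (ι → ℝ), T.card ≤ 2 ^ Fintype.card ι ∧
          K ⊆ ⋃ t ∈ T, (fun x => t + x) '' interior K)) ∧
    ((∃ y ∈ K, ∀ b ∈ B, ∀ X ∈ K, X b ≤ y b) → ∃ T : Finset (ι → ℝ),
      T.card ≤ 2 ^ Fintype.card ι ∧ K ⊆ ⋃ t ∈ T, (fun x => t + x) '' interior K) := by
  obtain ⟨h0, hsol, hK'⟩ := unc_setup hK hKi hu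
  have h := sum_all (fun _ : ι => Metric.closedBall (0 : ℝ) 1)
    (fun _ => convex_closedBall _ _) (fun _ => isCompact_closedBall _ _)
    (fun _ => by rw [interior_closedBall _ one_ne_zero]; simp) (fun _ => 2) (fun _ => le_rfl)
    (fun _ => interval_cov) K hK hKc.isClosed h0 hsol K hK' hKc.isBounded B G hGM hG Ind hcode
    hInd
  have e1 : ∏ _b ∈ B, 2 = 2 ^ B.card := by rw [Finset.prod_const]
  have e2 : ∏ _j : ι, 2 = 2 ^ Fintype.card ι := by rw [Finset.prod_const, Finset.card_univ]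
  rw [e1, e2] at h
  exact h.2.2.2

end Pool.Agent.Zk99.HB
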