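import Mathlib
import Pool.Agent.Zk99.HB.Cor

/-!
# Hereditary families of supports
-/

set_option autoImplicit false

namespace Pool.Agent.Zk99.HB

open Finset Filter Topology
open Pool.Agent.R753 (Sol)
open Pool.Agent.N148.HD (Unc unc_le sol_of_unc)

variable {ι : Type} [Fintype ι] [DecidableEq ι]

/-- Nonnegative points of an unconditional body which is spanned by points whose supports are in
a hereditary family. -/
lemma hull_nonneg {K : Set (ι → ℝ)} (hK : Convex ℝ K) (hu : Unc K) (I : Set ι → Prop)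
    (hI : ∀ S T : Set ι, S ⊆ T → I T → I S)
    (h : K ⊆ convexHull ℝ {x | x ∈ K ∧ I {i | x i ≠ 0}}) :
    ∀ X ∈ K, (∀ i, 0 ≤ X i) → X ∈ convexHull ℝ {Y | Y ∈ K ∧ (∀ i, 0 ≤ Y i) ∧ I {i | Y i ≠ 0}} := by
  set P : Set (ι → ℝ) := convexHull ℝ {Y | Y ∈ K ∧ (∀ i, 0 ≤ Y i) ∧ I {i | Y i ≠ 0}} with hP
  set Q : Set (ι → ℝ) := {X | ∀ Y : ι → ℝ, (∀ i, 0 ≤ Y i) → (∀ i, Y i ≤ |X i|) → Y ∈ P} with hQ
  have hQc : Convex ℝ Q := by
    intro X₁ h₁ X₂ h₂ a b ha hb hab Y hY0 hY
    set θ : ι → ℝ := fun i => Y i / (a * |X₁ i| + b * |X₂ i|) with hθ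
    have hle : ∀ i, Y i ≤ a * |X₁ i| + b * |X₂ i| := by
      intro i
      refine (hY i).trans ?_
      have h1 : |(a • X₁ + b • X₂) i| ≤ |a * X₁ i| + |b * X₂ i| := by
        simp only [Pi.add_apply, Pi.smul_apply, smul_eq_mul]
        exact abs_add_le _ _
      rw [abs_mul, abs_mul, abs_of_nonneg ha, abs_of_nonneg hb] at h1
      exact h1
    have hden : ∀ i, 0 ≤ a * |X₁ i| + b * |X₂ i| := fun i => (hY0 i).trans (hle i)
    have hθ0 : ∀ i, 0 ≤ θ i := fun i => div_nonneg (hY0 i) (hden i)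
    have hθ1 : ∀ i, θ i ≤ 1 := fun i => div_le_one_of_le₀ (hle i) (hden i)
    have hYe : Y = a • (fun i => θ i * |X₁ i|) + b • (fun i => θ i * |X₂ i|) := by
      funext i
      simp only [Pi.add_apply, Pi.smul_apply, smul_eq_mul]
      have h2 : a * (θ i * |X₁ i|) + b * (θ i * |X₂ i|) = θ i * (a * |X₁ i| + b * |X₂ i|) := by ring
      rw [h2]
      rcases (hden i).lt_or_eq with h3 | h3
      · exact (div_mul_cancel₀ _ h3.ne').symm
      · rw [← h3, mul_zero]
        have h4 := hle i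
        rw [← h3] at h4
        exact le_antisymm h4 (hY0 i)
    rw [hYe]
    refine (convex_convexHull ℝ _) (h₁ _ (fun i => ?_) fun i => ?_) (h₂ _ (fun i => ?_) fun i => ?_)
      ha hb hab
    · exact mul_nonneg (hθ0 i) (abs_nonneg _)
    · exact mul_le_of_le_one_left (abs_nonneg _) (hθ1 i)
    · exact mul_nonneg (hθ0 i) (abs_nonneg _)
    · exact mul_le_of_le_one_left (abs_nonneg _) (hθ1 i)
  have hEQ : {x | x ∈ K ∧ I {i | x i ≠ 0}} ⊆ Q := by
    rintro x ⟨hx, hxI⟩ Y hY0 hY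
    refine subset_convexHull ℝ _ ⟨unc_le hK hu x hx Y fun i => ?_, hY0, hI _ _ ?_ hxI⟩
    · rw [abs_of_nonneg (hY0 i)]
      exact hY i
    · intro i hi hxi
      have h1 := hY i
      rw [hxi, abs_zero] at h1
      exact hi (le_antisymm h1 (hY0 i))
  intro X hX hX0
  exact convexHull_min hEQ hQc (h hX) X hX0 fun i => le_abs_self _

/-- **Binary matroids**, with a section which is a box. -/
theorem unc_binary {W : Type} [AddCommGroup W] [Module (ZMod 2) W]
    (K : Set (ι → ℝ)) (hK : Convex ℝ K) (hKc : IsCompact K)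
    (hKi : (interior K).Nonempty) (hu : Unc K)
    (B : Finset ι) (v : ι → W) (hB : LinearIndepOn (ZMod 2) v (B : Set ι))
    (hsp : ⊤ ≤ Submodule.span (ZMod 2) (v '' (B : Set ι)))
    (hy : ∃ y ∈ K, ∀ b ∈ B, ∀ X ∈ K, X b ≤ y b)
    (hG : K ⊆ convexHull ℝ {x | x ∈ K ∧ LinearIndepOn (ZMod 2) v {i | x i ≠ 0}}) :
    ∃ T : Finset (ι → ℝ), T.card ≤ 2 ^ Fintype.card ι ∧
      K ⊆ ⋃ t ∈ T, (fun x => t + x) '' interior K := by
  have h1 := hull_nonneg hK hu (fun S => LinearIndepOn (ZMod 2) v S)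
    (fun S T hST hT => hT.mono hST) hG
  refine (unc_all K hK hKc hKi hu B
    {Y | Y ∈ K ∧ (∀ i, 0 ≤ Y i) ∧ LinearIndepOn (ZMod 2) v {i | Y i ≠ 0}}
    (fun Y hY => ⟨hY.1, hY.2.1⟩) h1 (fun S => LinearIndepOn (ZMod 2) v (S : Set ι))
    (code_linear (k := ZMod 2) (fun _ : ι => 2) (fun _ => (ZMod.card 2).le) B v hB hsp)
    (fun Y hY S hS _ => ?_)).2 hy
  have h1 : (S : Set ι) = {i | Y i ≠ 0} := by
    ext i
    simp only [Finset.mem_coe, Set.mem_ofPred_eq, ← hS]
    exact ⟨fun h => h.ne', fun h => lt_of_le_of_ne (hY.2.1 i) (Ne.symm h)⟩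
  rw [h1]
  exact hY.2.2

/-- **Stable sets of graphs.** -/
theorem unc_graph (R : ι → ι → Prop) (r : ℕ) (col : ι → Fin r)
    (hcol : ∀ i j, i ≠ j → col i = col j → R i j)
    (K : Set (ι → ℝ)) (hK : Convex ℝ K) (hKc : IsCompact K)
    (hKi : (interior K).Nonempty) (hu : Unc K)
    (B : Finset ι) (hBr : r ≤ B.card) (hBs : ∀ i ∈ B, ∀ j ∈ B, i ≠ j → ¬ R i j)
    (hy : ∃ y ∈ K, ∀ b ∈ B, ∀ X ∈ K, X b ≤ y b)
    (hG : K ⊆ convexHull ℝ {x | x ∈ K ∧ ∀ i j, x i ≠ 0 → x j ≠ 0 → i ≠ j → ¬ R i j}) :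
    ∃ T : Finset (ι → ℝ), T.card ≤ 2 ^ Fintype.card ι ∧
      K ⊆ ⋃ t ∈ T, (fun x => t + x) '' interior K := by
  set v : ι → (Fin r → ZMod 2) := fun i => Pi.single (col i) 1 with hv
  have hind : ∀ S : Set ι, (∀ i ∈ S, ∀ j ∈ S, i ≠ j → ¬ R i j) → LinearIndepOn (ZMod 2) v S := by
    intro S hS
    have hinj : Function.Injective (fun i : S => col i) := by
      intro i j hij
      by_contra hne
      have hne' : (i : ι) ≠ j := fun h => hne (Subtype.ext h)
      exact hS i i.2 j j.2 hne' (hcol i j hne' hij)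
    have h1 := (Pi.basisFun (ZMod 2) (Fin r)).linearIndependent.comp _ hinj
    have h2 : (⇑(Pi.basisFun (ZMod 2) (Fin r)) ∘ fun i : S => col i) = fun i : S => v i := by
      funext i
      simp [hv]
    rw [h2] at h1
    exact h1
  have hBinj : Set.InjOn col (B : Set ι) := by
    intro i hi j hj hij
    by_contra hne
    exact hBs i hi j hj hne (hcol i j hne hij)
  have hsurj : ∀ c : Fin r, ∃ b ∈ B, col b = c := by
    have h1 : B.image col = univ := by
      refine Finset.eq_univ_of_card _ ?_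
      rw [Finset.card_image_of_injOn hBinj, Fintype.card_fin]
      refine le_antisymm ?_ hBr
      have h2 : B.card = (B.image col).card := (Finset.card_image_of_injOn hBinj).symm
      rw [h2]
      exact (Finset.card_le_univ _).trans (Fintype.card_fin r).le
    intro c
    have h2 : c ∈ B.image col := by rw [h1]; exact mem_univ c
    exact Finset.mem_image.1 h2
  refine unc_binary K hK hKc hKi hu B v (hind _ hBs) ?_ hy (hG.trans (convexHull_mono ?_))
  · intro w _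
    have h1 : w = ∑ c, w c • (Pi.single c 1 : Fin r → ZMod 2) := by
      funext c
      rw [Finset.sum_apply, Finset.sum_eq_single c]
      · simp
      · intro c' _ hne
        simp [Pi.single_eq_of_ne hne.symm]
      · intro h
        exact absurd (mem_univ c) h
    rw [h1]
    refine Submodule.sum_mem _ fun c _ => Submodule.smul_mem _ _ (Submodule.subset_span ?_)
    obtain ⟨b, hb, hbc⟩ := hsurj c
    refine ⟨b, hb, ?_⟩
    simp only [hv, hbc]
  · rintro x ⟨hx, hx2⟩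
    exact ⟨hx, hind _ fun i hi j hj hne => hx2 i j hi hj hne⟩

end Pool.Agent.Zk99.HB
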