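import Mathlib
import Pool.Agent.Zk99.HB.Hull

/-!
# Euclidean spaces
-/

set_option autoImplicit false

namespace Pool.Agent.Zk99.HB

open Finset Filter Topology
open Pool.Agent.N148.HD (Unc)

/-- coverings and isomorphisms -/
lemma cov_preimage {V W : Type} [AddCommGroup V] [TopologicalSpace V] [AddCommGroup W]
    [TopologicalSpace W] (e : V ≃ₜ W) (he : ∀ x y, e (x + y) = e x + e y) {K : Set W} {N : ℕ}
    (h : ∃ T : Finset V, T.card ≤ N ∧ e ⁻¹' K ⊆ ⋃ t ∈ T, (fun x => t + x) '' interior (e ⁻¹' K)) :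
    ∃ T : Finset W, T.card ≤ N ∧ K ⊆ ⋃ t ∈ T, (fun x => t + x) '' interior K := by
  classical
  obtain ⟨T, hT, hT2⟩ := h
  refine ⟨T.image e, card_image_le.trans hT, fun x hx => ?_⟩
  have h1 : e.symm x ∈ e ⁻¹' K := by
    rw [Set.mem_preimage, Homeomorph.apply_symm_apply]
    exact hx
  obtain ⟨t, ht, w, hw, htw⟩ := Set.mem_iUnion₂.1 (hT2 h1)
  refine Set.mem_iUnion₂.2 ⟨e t, mem_image_of_mem _ ht, e w, ?_, ?_⟩
  · rw [← e.preimage_interior] at hw
    exact hw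
  · show e t + e w = x
    have h2 : t + w = e.symm x := htw
    rw [← he, h2, Homeomorph.apply_symm_apply]

variable {n : ℕ}

/-- the set of functions -/
def fset (K : Set (EuclideanSpace ℝ (Fin n))) : Set (Fin n → ℝ) := {x | WithLp.toLp 2 x ∈ K}

lemma fset_props {K : Set (EuclideanSpace ℝ (Fin n))} (hK : Convex ℝ K) (hKc : IsCompact K)
    (hKi : (interior K).Nonempty)
    (hu : ∀ x ∈ K, ∀ y : EuclideanSpace ℝ (Fin n), (∀ i, |y i| = |x i|) → y ∈ K) :
    Convex ℝ (fset K) ∧ IsCompact (fset K) ∧ (interior (fset K)).Nonempty ∧ Unc (fset K) := by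
  have hpre : fset K = (EuclideanSpace.equiv (Fin n) ℝ).symm ⁻¹' K := rfl
  refine ⟨?_, ?_, ?_, ?_⟩
  · rw [hpre]
    exact hK.linear_preimage (EuclideanSpace.equiv (Fin n) ℝ).symm.toLinearMap
  · rw [hpre]
    exact (EuclideanSpace.equiv (Fin n) ℝ).symm.toHomeomorph.isCompact_preimage.2 hKc
  · obtain ⟨x, hx⟩ := hKi
    refine ⟨EuclideanSpace.equiv (Fin n) ℝ x, ?_⟩
    rw [hpre]
    have h1 : EuclideanSpace.equiv (Fin n) ℝ x ∈
        (EuclideanSpace.equiv (Fin n) ℝ).symm.toHomeomorph ⁻¹' interior K := by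
      rw [Set.mem_preimage]
      show (EuclideanSpace.equiv (Fin n) ℝ).symm (EuclideanSpace.equiv (Fin n) ℝ x) ∈ interior K
      rw [ContinuousLinearEquiv.symm_apply_apply]
      exact hx
    rw [(EuclideanSpace.equiv (Fin n) ℝ).symm.toHomeomorph.preimage_interior] at h1
    exact h1
  · intro x hx y hy
    exact hu _ hx _ hy

/-- coverings of the set of functions -/
lemma cov_fset {K : Set (EuclideanSpace ℝ (Fin n))} {N : ℕ}
    (h : ∃ T : Finset (Fin n → ℝ), T.card ≤ N ∧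
      fset K ⊆ ⋃ t ∈ T, (fun x => t + x) '' interior (fset K)) :
    ∃ T : Finset (EuclideanSpace ℝ (Fin n)), T.card ≤ N ∧
      K ⊆ ⋃ t ∈ T, (fun x => t + x) '' interior K :=
  cov_preimage (EuclideanSpace.equiv (Fin n) ℝ).symm.toHomeomorph
    (fun x y => map_add (EuclideanSpace.equiv (Fin n) ℝ).symm x y) h

/-- hulls of sets of functions -/
lemma hull_fset {K : Set (EuclideanSpace ℝ (Fin n))} (p : (Fin n → ℝ) → Prop)
    (h : K ⊆ convexHull ℝ {x | x ∈ K ∧ p (WithLp.ofLp x)}) :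
    fset K ⊆ convexHull ℝ {x | x ∈ fset K ∧ p x} := by
  intro x hx
  have h1 := h (show WithLp.toLp 2 x ∈ K from hx)
  have h2 := Set.mem_image_of_mem (EuclideanSpace.equiv (Fin n) ℝ).toLinearMap h1
  rw [LinearMap.image_convexHull] at h2
  refine convexHull_mono ?_ h2
  rintro _ ⟨y, ⟨hy, hpy⟩, rfl⟩
  exact ⟨hy, hpy⟩

/-- coverings of sections -/
lemma cov_sec {K : Set (EuclideanSpace ℝ (Fin n))} (B : Finset (Fin n)) {N : ℕ}
    (h : ∃ T : Finset (EuclideanSpace ℝ B), T.card ≤ N ∧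
      {z : EuclideanSpace ℝ B | WithLp.toLp 2 (fun j => if h : j ∈ B then z ⟨j, h⟩ else 0) ∈ K} ⊆
        ⋃ t ∈ T, (fun x => t + x) '' interior {z : EuclideanSpace ℝ B |
          WithLp.toLp 2 (fun j => if h : j ∈ B then z ⟨j, h⟩ else 0) ∈ K}) :
    ∃ T : Finset (B → ℝ), T.card ≤ N ∧
      {z : B → ℝ | ext0 B z ∈ fset K} ⊆
        ⋃ t ∈ T, (fun x => t + x) '' interior {z : B → ℝ | ext0 B z ∈ fset K} :=
  cov_preimage (EuclideanSpace.equiv B ℝ).toHomeomorph
    (fun x y => map_add (EuclideanSpace.equiv B ℝ) x y) h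

end Pool.Agent.Zk99.HB
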