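import Mathlib
import Pool.Agent.Zk99.HB.Eucl

/-!
# Unconditional reflexive polytopes
-/

set_option autoImplicit false

namespace Pool.Agent.Zk99.HB

open Finset Filter Topology
open Pool.Agent.N148.HD (Unc unc_le)

variable {ι : Type} [Fintype ι] [DecidableEq ι]

/-- A covering by cliques, if the incidence vectors of the stable sets and the cliques of `T`
describe the same polytope. -/
lemma clique_cover {K : Set (ι → ℝ)} (S T : Finset (ι → ℤ))
    (hS : K = convexHull ℝ ((fun s : ι → ℤ => fun i => (s i : ℝ)) '' (S : Set (ι → ℤ))))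
    (hT : K = {x | ∀ t ∈ T, ∑ i, x i * (t i : ℝ) ≤ 1})
    (hT1 : ∀ t ∈ T, ∀ i, t i ≤ 1) (hT0 : ∀ i, ∃ t ∈ T, t i ≠ 0)
    (hS1 : ∀ s ∈ S, ∀ i, s i ≤ 1)
    (hst : ∀ s ∈ S, ∀ i j, s i ≠ 0 → s j ≠ 0 → i ≠ j → ¬ ∃ t ∈ T, t i ≠ 0 ∧ t j ≠ 0) :
    ∀ (m : ℕ) (W : Finset ι),
      (∀ A : Finset ι, A ⊆ W → (∀ i ∈ A, ∀ j ∈ A, i ≠ j → ¬ ∃ t ∈ T, t i ≠ 0 ∧ t j ≠ 0) →
        A.card ≤ m) →
      ∃ col : ι → ℕ, (∀ i ∈ W, col i < m) ∧
        ∀ i ∈ W, ∀ j ∈ W, i ≠ j → col i = col j → ∃ t ∈ T, t i ≠ 0 ∧ t j ≠ 0 := by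
  intro m
  induction m with
  | zero =>
    intro W hW
    have h0 : ∀ i, i ∉ W := by
      intro i hi
      have h1 := hW {i} (singleton_subset_iff.2 hi) (fun a ha b hb hab => by
        rw [mem_singleton] at ha hb
        exact absurd (ha.trans hb.symm) hab)
      rw [card_singleton] at h1
      omega
    exact ⟨fun _ => 0, fun i hi => absurd hi (h0 i), fun i hi => absurd hi (h0 i)⟩
  | succ m ih =>
    intro W hW
    rcases W.eq_empty_or_nonempty with rfl | ⟨i₀, hi₀⟩
    · exact ⟨fun _ => 0, fun i hi => absurd hi (notMem_empty i),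
        fun i hi => absurd hi (notMem_empty i)⟩
    have key : ∃ t ∈ T, ∀ A : Finset ι, A ⊆ W →
        (∀ i ∈ A, ∀ j ∈ A, i ≠ j → ¬ ∃ t ∈ T, t i ≠ 0 ∧ t j ≠ 0) → A.card = m + 1 →
        ∃ i ∈ A, t i ≠ 0 := by
      by_contra hcon
      push Not at hcon
      choose! A hAW hAst hAc hA0 using hcon
      -- the average of the incidence vectors
      have hTpos : 1 ≤ T.card := by
        obtain ⟨t, ht, _⟩ := hT0 i₀
        exact card_pos.2 ⟨t, ht⟩
      have hTr : (1 : ℝ) ≤ T.card := by exact_mod_cast hTpos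
      set c : ℝ := 1 / ((T.card : ℝ) - 1 / 2) with hc
      have hcpos : 0 < c := by
        rw [hc]
        apply one_div_pos.2
        linarith
      have hcT : c * ((T.card : ℝ) - 1 / 2) = 1 := by
        rw [hc]
        exact one_div_mul_cancel (by linarith)
      set x : ι → ℝ := fun i => ∑ t ∈ T, if i ∈ A t then c else 0 with hx
      have hxsum : ∀ u : ι → ℝ, ∑ i, x i * u i = ∑ t ∈ T, c * ∑ i ∈ A t, u i := by
        intro u
        simp only [hx, Finset.sum_mul]
        rw [Finset.sum_comm]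
        refine Finset.sum_congr rfl fun t _ => ?_
        rw [Finset.mul_sum, ← Finset.sum_filter_add_sum_filter_not univ (fun i => i ∈ A t)]
        have h1 : ∑ i ∈ univ.filter (fun i => ¬ i ∈ A t), (if i ∈ A t then c else 0) * u i = 0 := by
          refine Finset.sum_eq_zero fun i hi => ?_
          rw [if_neg (mem_filter.1 hi).2, zero_mul]
        have h2 : univ.filter (fun i => i ∈ A t) = A t := by
          ext i
          simp
        rw [h1, add_zero, h2]
        refine Finset.sum_congr rfl fun i hi => ?_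
        rw [if_pos hi]
      -- sums over a stable set
      have hle1 : ∀ t ∈ T, ∀ t₀ ∈ T, ∑ i ∈ A t, ((t₀ i : ℤ) : ℝ) ≤ 1 := by
        intro t ht t₀ ht₀
        by_cases hex : ∃ i ∈ A t, t₀ i ≠ 0
        · obtain ⟨i, hi, hti⟩ := hex
          rw [Finset.sum_eq_single_of_mem i hi]
          · exact_mod_cast hT1 t₀ ht₀ i
          · intro j hj hji
            by_contra hne
            have hne' : t₀ j ≠ 0 := fun h => hne (by rw [h, Int.cast_zero])
            exact hti (hAst t ht j hj i hi hji t₀ ht₀ hne')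
        · push Not at hex
          rw [Finset.sum_eq_zero fun i hi => by rw [hex i hi, Int.cast_zero]]
          exact zero_le_one
      have hxK : x ∈ K := by
        rw [hT]
        intro t₀ ht₀
        rw [hxsum (fun i => (t₀ i : ℝ)), ← Finset.mul_sum]
        have h1 : ∑ t ∈ T, ∑ i ∈ A t, ((t₀ i : ℤ) : ℝ) ≤ ∑ t ∈ T.erase t₀, (1 : ℝ) := by
          rw [← Finset.add_sum_erase T _ ht₀,
            Finset.sum_eq_zero fun i hi => by rw [hA0 t₀ ht₀ i hi, Int.cast_zero], zero_add]
          exact Finset.sum_le_sum fun t ht => hle1 t (mem_of_mem_erase ht) t₀ ht₀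
        rw [Finset.sum_const, card_erase_of_mem ht₀, nsmul_eq_mul, mul_one,
          Nat.cast_sub hTpos, Nat.cast_one] at h1
        have h2 : c * ∑ t ∈ T, ∑ i ∈ A t, ((t₀ i : ℤ) : ℝ) ≤ c * ((T.card : ℝ) - 1) :=
          mul_le_mul_of_nonneg_left h1 hcpos.le
        have h3 : c * ((T.card : ℝ) - 1) ≤ 1 := by
          rw [← hcT]
          exact mul_le_mul_of_nonneg_left (by linarith) hcpos.le
        exact h2.trans h3
      -- the functional
      have hf : ∀ y ∈ K, ∑ i, y i * (if i ∈ W then (1 : ℝ) else 0) ≤ m + 1 := by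
        have hconv : Convex ℝ {y : ι → ℝ | ∑ i, y i * (if i ∈ W then (1 : ℝ) else 0) ≤ m + 1} := by
          intro y hy z hz a b ha hb hab
          have hy' : ∑ i, y i * (if i ∈ W then (1 : ℝ) else 0) ≤ m + 1 := hy
          have hz' : ∑ i, z i * (if i ∈ W then (1 : ℝ) else 0) ≤ m + 1 := hz
          show ∑ i, (a • y + b • z) i * (if i ∈ W then (1 : ℝ) else 0) ≤ m + 1
          have h1 : ∑ i, (a • y + b • z) i * (if i ∈ W then (1 : ℝ) else 0) =
              a * ∑ i, y i * (if i ∈ W then (1 : ℝ) else 0) +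
              b * ∑ i, z i * (if i ∈ W then (1 : ℝ) else 0) := by
            rw [Finset.mul_sum, Finset.mul_sum, ← Finset.sum_add_distrib]
            refine Finset.sum_congr rfl fun i _ => ?_
            simp only [Pi.add_apply, Pi.smul_apply, smul_eq_mul]
            ring
          rw [h1]
          have h2 := mul_le_mul_of_nonneg_left hy' ha
          have h3 := mul_le_mul_of_nonneg_left hz' hb
          have h4 : a * ((m : ℝ) + 1) + b * ((m : ℝ) + 1) = m + 1 := by
            rw [← add_mul, hab, one_mul]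
          linarith
        intro y hy
        rw [hS] at hy
        refine convexHull_min ?_ hconv hy
        rintro _ ⟨s, hs, rfl⟩
        show ∑ i, (s i : ℝ) * (if i ∈ W then (1 : ℝ) else 0) ≤ m + 1
        have h1 : ∑ i, (s i : ℝ) * (if i ∈ W then (1 : ℝ) else 0) ≤
            ∑ i, (if i ∈ W.filter (fun i => s i ≠ 0) then (1 : ℝ) else 0) := by
          refine Finset.sum_le_sum fun i _ => ?_
          by_cases hiW : i ∈ W
          · by_cases hsi : s i = 0
            · rw [hsi, Int.cast_zero, zero_mul]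
              split_ifs <;> norm_num
            · rw [if_pos hiW, if_pos (mem_filter.2 ⟨hiW, hsi⟩), mul_one]
              exact_mod_cast hS1 s hs i
          · rw [if_neg hiW, mul_zero]
            split_ifs <;> norm_num
        refine h1.trans ?_
        rw [Finset.sum_ite_mem, univ_inter, Finset.sum_const, nsmul_eq_mul, mul_one]
        have h2 := hW (W.filter fun i => s i ≠ 0) (filter_subset _ _) (fun i hi j hj hij =>
          hst s hs i j (mem_filter.1 hi).2 (mem_filter.1 hj).2 hij)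
        exact_mod_cast h2
      have h1 := hf x hxK
      rw [hxsum] at h1
      have h2 : ∀ t ∈ T, c * ∑ i ∈ A t, (if i ∈ W then (1 : ℝ) else 0) = c * (m + 1) := by
        intro t ht
        congr 1
        rw [Finset.sum_congr rfl fun i hi => if_pos (hAW t ht hi), Finset.sum_const, hAc t ht,
          nsmul_eq_mul, mul_one]
        push_cast
        rfl
      rw [Finset.sum_congr rfl h2, Finset.sum_const, nsmul_eq_mul] at h1
      have h3 : (T.card : ℝ) * (c * (m + 1)) = (m + 1) * (1 + c / 2) := by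
        have h4 : (T.card : ℝ) * c = 1 + c / 2 := by linarith
        calc (T.card : ℝ) * (c * (m + 1)) = ((T.card : ℝ) * c) * (m + 1) := by ring
          _ = (m + 1) * (1 + c / 2) := by rw [h4]; ring
      rw [h3] at h1
      have h5 : (0 : ℝ) < (m + 1) * (c / 2) := by positivity
      nlinarith
    obtain ⟨t, ht, hmeet⟩ := key
    obtain ⟨col, hcol1, hcol2⟩ := ih (W.filter fun i => t i = 0) (fun A hA hAst => by
      by_contra hlt
      push Not at hlt
      have hAW : A ⊆ W := hA.trans (filter_subset _ _)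
      have h1 := hW A hAW hAst
      have h2 : A.card = m + 1 := by omega
      obtain ⟨i, hi, hti⟩ := hmeet A hAW hAst h2
      exact hti (mem_filter.1 (hA hi)).2)
    refine ⟨fun i => if t i = 0 then col i else m, fun i hi => ?_, fun i hi j hj hij hc => ?_⟩
    · by_cases h : t i = 0
      · simp only [h, if_true]
        exact (hcol1 i (mem_filter.2 ⟨hi, h⟩)).trans (Nat.lt_succ_self m)
      · simp only [h, if_false]
        exact Nat.lt_succ_self m
    · by_cases h : t i = 0
      · by_cases h' : t j = 0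
        · simp only [h, h', if_true] at hc
          exact hcol2 i (mem_filter.2 ⟨hi, h⟩) j (mem_filter.2 ⟨hj, h'⟩) hij hc
        · simp only [h, h', if_true, if_false] at hc
          exact absurd hc (hcol1 i (mem_filter.2 ⟨hi, h⟩)).ne
      · by_cases h' : t j = 0
        · simp only [h, h', if_true, if_false] at hc
          exact absurd hc.symm (hcol1 j (mem_filter.2 ⟨hj, h'⟩)).ne
        · exact ⟨t, ht, h, h'⟩

/-- **Unconditional reflexive polytopes.** -/
theorem unc_reflexive (K : Set (ι → ℝ)) (hK : Convex ℝ K) (hKc : IsCompact K)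
    (hKi : (interior K).Nonempty) (hu : Unc K) (S T : Finset (ι → ℤ))
    (hS : K = convexHull ℝ ((fun s : ι → ℤ => fun i => (s i : ℝ)) '' (S : Set (ι → ℤ))))
    (hT : K = {x | ∀ t ∈ T, ∑ i, x i * (t i : ℝ) ≤ 1}) :
    ∃ U : Finset (ι → ℝ), U.card ≤ 2 ^ Fintype.card ι ∧
      K ⊆ ⋃ t ∈ U, (fun x => t + x) '' interior K := by
  obtain ⟨h0, -⟩ := unc_setup hK hKi hu
  have hSK : ∀ s ∈ S, (fun i => (s i : ℝ)) ∈ K := by
    intro s hs
    rw [hS]
    exact subset_convexHull ℝ _ ⟨s, hs, rfl⟩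
  -- (a)
  have hSi : ∀ i, ∃ s ∈ S, s i ≠ 0 := by
    intro i
    by_contra hcon
    push Not at hcon
    have h1 : K ⊆ {x | x i = 0} := by
      rw [hS]
      refine convexHull_min ?_ ?_
      · rintro _ ⟨s, hs, rfl⟩
        show (s i : ℝ) = 0
        rw [hcon s hs, Int.cast_zero]
      · intro x hx y hy a b _ _ _
        have hx' : x i = 0 := hx
        have hy' : y i = 0 := hy
        show a * x i + b * y i = 0
        rw [hx', hy', mul_zero, mul_zero, add_zero]
    have h2 : ∀ᶠ δ : ℝ in 𝓝 0, (Pi.single i δ : ι → ℝ) ∈ K := by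
      have h3 : Tendsto (fun δ : ℝ => (Pi.single i δ : ι → ℝ)) (𝓝 0) (𝓝 0) := by
        have h4 : Continuous fun δ : ℝ => (Pi.single i δ : ι → ℝ) :=
          continuous_single (A := fun _ : ι => ℝ) i
        have h5 := h4.tendsto 0
        rw [Pi.single_zero] at h5
        exact h5
      exact h3.eventually (mem_interior_iff_mem_nhds.1 h0)
    obtain ⟨δ, hδ, hδ0⟩ := (h2.filter_mono nhdsWithin_le_nhds |>.and
      (self_mem_nhdsWithin : {x : ℝ | 0 < x} ∈ 𝓝[>] (0 : ℝ))).exists
    have h6 : (Pi.single i δ : ι → ℝ) i = 0 := h1 hδ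
    rw [Pi.single_eq_same] at h6
    exact (ne_of_gt hδ0) h6
  -- (b)
  have hei : ∀ i, ∀ δ : ℝ, |δ| ≤ 1 → (Pi.single i δ : ι → ℝ) ∈ K := by
    intro i δ hδ
    obtain ⟨s, hs, hsi⟩ := hSi i
    refine unc_le hK hu _ (hSK s hs) _ fun j => ?_
    by_cases hj : j = i
    · subst hj
      rw [Pi.single_eq_same]
      have h1 : (1 : ℤ) ≤ |s j| := Int.one_le_abs hsi
      have h2 : (1 : ℝ) ≤ |(s j : ℝ)| := by exact_mod_cast h1
      exact hδ.trans h2
    · rw [Pi.single_eq_of_ne hj, abs_zero]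
      exact abs_nonneg _
  have hsum1 : ∀ (i : ι) (δ : ℝ) (t : ι → ℤ),
      ∑ j, (Pi.single i δ : ι → ℝ) j * (t j : ℝ) = δ * t i := by
    intro i δ t
    rw [Finset.sum_eq_single i]
    · rw [Pi.single_eq_same]
    · intro j _ hj
      rw [Pi.single_eq_of_ne hj, zero_mul]
    · intro h
      exact absurd (mem_univ i) h
  -- (c)
  have hTle : ∀ t ∈ T, ∀ i, |t i| ≤ 1 := by
    intro t ht i
    have h1 := hei i 1 (by norm_num)
    have h2 := hei i (-1) (by norm_num)
    rw [hT] at h1 h2
    have h3 := h1 t ht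
    have h4 := h2 t ht
    rw [hsum1] at h3 h4
    rw [abs_le]
    constructor
    · have h5 : (-(1 : ℝ)) ≤ (t i : ℝ) := by linarith
      exact_mod_cast h5
    · have h5 : (t i : ℝ) ≤ 1 := by linarith
      exact_mod_cast h5
  have hTabs : ∀ t ∈ T, ∀ i, t i ≠ 0 → |t i| = 1 := fun t ht i hti =>
    le_antisymm (hTle t ht i) (Int.one_le_abs hti)
  -- (d)
  have hT0 : ∀ i, ∃ t ∈ T, t i ≠ 0 := by
    intro i
    by_contra hcon
    push Not at hcon
    have h1 : ∀ δ : ℝ, (Pi.single i δ : ι → ℝ) ∈ K := by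
      intro δ
      rw [hT]
      intro t ht
      rw [hsum1, hcon t ht, Int.cast_zero, mul_zero]
      exact zero_le_one
    obtain ⟨R, hR⟩ := hKc.isBounded.exists_norm_le
    have h2 := hR _ (h1 (R + 1))
    have h3 := norm_le_pi_norm (Pi.single i (R + 1) : ι → ℝ) i
    rw [Pi.single_eq_same, Real.norm_eq_abs] at h3
    have h4 := le_abs_self (R + 1)
    linarith
  -- (e)
  have hK1 : ∀ x ∈ K, ∀ i, |x i| ≤ 1 := by
    intro x hx i
    obtain ⟨t, ht, hti⟩ := hT0 i
    have h1 : (Pi.single i (|x i| * t i) : ι → ℝ) ∈ K := by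
      refine unc_le hK hu x hx _ fun j => ?_
      by_cases hj : j = i
      · subst hj
        rw [Pi.single_eq_same, abs_mul, abs_abs]
        have h2 : |((t j : ℤ) : ℝ)| = 1 := by exact_mod_cast hTabs t ht j hti
        rw [h2, mul_one]
      · rw [Pi.single_eq_of_ne hj, abs_zero]
        exact abs_nonneg _
    rw [hT] at h1
    have h2 := h1 t ht
    rw [hsum1] at h2
    have h3 : ((t i : ℤ) : ℝ) * t i = 1 := by
      have h4 : t i * t i = 1 := by
        rw [← abs_mul_abs_self, hTabs t ht i hti, mul_one]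
      exact_mod_cast h4
    rw [mul_assoc, h3, mul_one] at h2
    exact h2
  have hSle : ∀ s ∈ S, ∀ i, s i ≤ 1 := by
    intro s hs i
    have h1 := (le_abs_self _).trans (hK1 _ (hSK s hs) i)
    exact_mod_cast h1
  -- (f)
  have hst : ∀ s ∈ S, ∀ i j, s i ≠ 0 → s j ≠ 0 → i ≠ j → ¬ ∃ t ∈ T, t i ≠ 0 ∧ t j ≠ 0 := by
    rintro s hs i j hsi hsj hij ⟨t, ht, hti, htj⟩
    have h1 : (Pi.single i (t i : ℝ) + Pi.single j (t j : ℝ) : ι → ℝ) ∈ K := by
      refine unc_le hK hu _ (hSK s hs) _ fun l => ?_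
      by_cases hl : l = i
      · subst hl
        rw [Pi.add_apply, Pi.single_eq_same, Pi.single_eq_of_ne hij, add_zero]
        have h2 : |t l| ≤ |s l| := (hTle t ht l).trans (Int.one_le_abs hsi)
        exact_mod_cast h2
      · by_cases hl' : l = j
        · subst hl'
          rw [Pi.add_apply, Pi.single_eq_same, Pi.single_eq_of_ne hij.symm, zero_add]
          have h2 : |t l| ≤ |s l| := (hTle t ht l).trans (Int.one_le_abs hsj)
          exact_mod_cast h2
        · rw [Pi.add_apply, Pi.single_eq_of_ne hl, Pi.single_eq_of_ne hl', add_zero, abs_zero]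
          exact abs_nonneg _
    rw [hT] at h1
    have h2 := h1 t ht
    have h3 : ∑ l, (Pi.single i (t i : ℝ) + Pi.single j (t j : ℝ) : ι → ℝ) l * (t l : ℝ) =
        (t i : ℝ) * t i + (t j : ℝ) * t j := by
      rw [← hsum1 i (t i) t, ← hsum1 j (t j) t, ← Finset.sum_add_distrib]
      refine Finset.sum_congr rfl fun l _ => ?_
      rw [Pi.add_apply, add_mul]
    rw [h3] at h2
    have h4 : ∀ l, t l ≠ 0 → ((t l : ℤ) : ℝ) * t l = 1 := by
      intro l hl
      have h5 : t l * t l = 1 := by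
        rw [← abs_mul_abs_self, hTabs t ht l hl, mul_one]
      exact_mod_cast h5
    rw [h4 i hti, h4 j htj] at h2
    norm_num at h2
  have hstK : ∀ A : Finset ι, (∀ i ∈ A, ∀ j ∈ A, i ≠ j → ¬ ∃ t ∈ T, t i ≠ 0 ∧ t j ≠ 0) →
      (fun i => if i ∈ A then (1 : ℝ) else 0) ∈ K := by
    intro A hA
    rw [hT]
    intro t ht
    show ∑ i, (if i ∈ A then (1 : ℝ) else 0) * (t i : ℝ) ≤ 1
    by_cases hex : ∃ i ∈ A, t i ≠ 0
    · obtain ⟨i, hi, hti⟩ := hex
      rw [Finset.sum_eq_single i]
      · rw [if_pos hi, one_mul]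
        exact_mod_cast (le_abs_self _).trans (hTle t ht i)
      · intro j _ hji
        by_cases hjA : j ∈ A
        · have h1 : t j = 0 := by
            by_contra hne
            exact hA j hjA i hi hji ⟨t, ht, hne, hti⟩
          rw [h1, Int.cast_zero, mul_zero]
        · rw [if_neg hjA, zero_mul]
      · intro h
        exact absurd (mem_univ i) h
    · push Not at hex
      rw [Finset.sum_eq_zero]
      · exact zero_le_one
      · intro j _
        by_cases hjA : j ∈ A
        · rw [hex j hjA, Int.cast_zero, mul_zero]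
        · rw [if_neg hjA, zero_mul]
  -- (g)
  classical
  obtain ⟨B, hB, hBmax⟩ := Finset.exists_max_image (univ.powerset.filter fun A : Finset ι =>
    ∀ i ∈ A, ∀ j ∈ A, i ≠ j → ¬ ∃ t ∈ T, t i ≠ 0 ∧ t j ≠ 0) Finset.card
    ⟨∅, mem_filter.2 ⟨empty_mem_powerset _, fun i hi => absurd hi (notMem_empty i)⟩⟩
  have hBst := (mem_filter.1 hB).2
  obtain ⟨col, hcol1, hcol2⟩ := clique_cover S T hS hT
    (fun t ht i => (le_abs_self _).trans (hTle t ht i)) hT0 hSle hst B.card univ
    (fun A _ hA => hBmax A (mem_filter.2 ⟨mem_powerset.2 (subset_univ A), hA⟩))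
  refine unc_graph (fun i j => ∃ t ∈ T, t i ≠ 0 ∧ t j ≠ 0) B.card
    (fun i => ⟨col i, hcol1 i (mem_univ i)⟩) (fun i j hij hc =>
      hcol2 i (mem_univ i) j (mem_univ j) hij (by simpa using hc)) K hK hKc hKi hu B le_rfl hBst
    ⟨_, hstK B hBst, fun b hb X hX => ?_⟩ ?_
  · rw [if_pos hb]
    exact (le_abs_self _).trans (hK1 X hX b)
  · conv_lhs => rw [hS]
    refine convexHull_mono ?_
    rintro _ ⟨s, hs, rfl⟩
    refine ⟨hSK s hs, fun i j hi hj hij => hst s hs i j ?_ ?_ hij⟩
    · intro h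
      exact hi (by simp [h])
    · intro h
      exact hj (by simp [h])

/-- the bipolar theorem for a polar which is the convex hull of finitely many lattice points -/
lemma bipolar {K : Set (ι → ℝ)} (hK : Convex ℝ K) (hKcl : IsClosed K) (h0 : (0 : ι → ℝ) ∈ K)
    (T : Finset (ι → ℤ))
    (hP : {y : ι → ℝ | ∀ x ∈ K, ∑ i, x i * y i ≤ 1} =
      convexHull ℝ ((fun s : ι → ℤ => fun i => (s i : ℝ)) '' (T : Set (ι → ℤ)))) :
    K = {x | ∀ t ∈ T, ∑ i, x i * (t i : ℝ) ≤ 1} := by
  apply Set.Subset.antisymm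
  · intro x hx t ht
    have h1 : (fun i => (t i : ℝ)) ∈ {y : ι → ℝ | ∀ x ∈ K, ∑ i, x i * y i ≤ 1} := by
      rw [hP]
      exact subset_convexHull ℝ _ ⟨t, ht, rfl⟩
    exact h1 x hx
  · intro x₀ hx₀
    by_contra hx
    obtain ⟨f, u, hf, hu⟩ := geometric_hahn_banach_closed_point hK hKcl hx
    have hupos : 0 < u := by
      have h1 := hf 0 h0
      rw [map_zero] at h1
      exact h1
    have hfx : ∀ x : ι → ℝ, ∑ i, x i * (f (Pi.single i 1) / u) = f x / u := by
      intro x
      have h1 : x = ∑ i, x i • (Pi.single i 1 : ι → ℝ) := by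
        funext j
        rw [Finset.sum_apply, Finset.sum_eq_single j]
        · simp
        · intro i _ hij
          simp [Pi.single_eq_of_ne hij.symm]
        · intro h
          exact absurd (mem_univ j) h
      conv_rhs => rw [h1, map_sum]
      rw [Finset.sum_div]
      refine Finset.sum_congr rfl fun i _ => ?_
      rw [map_smul, smul_eq_mul, mul_div_assoc]
    have hy : (fun i => f (Pi.single i 1) / u) ∈
        {y : ι → ℝ | ∀ x ∈ K, ∑ i, x i * y i ≤ 1} := by
      intro x hx
      show ∑ i, x i * (f (Pi.single i 1) / u) ≤ 1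
      rw [hfx, div_le_one hupos]
      exact (hf x hx).le
    rw [hP] at hy
    have hconv : Convex ℝ {y : ι → ℝ | ∑ i, x₀ i * y i ≤ 1} := by
      intro y hy z hz a b ha hb hab
      have hy' : ∑ i, x₀ i * y i ≤ 1 := hy
      have hz' : ∑ i, x₀ i * z i ≤ 1 := hz
      show ∑ i, x₀ i * (a • y + b • z) i ≤ 1
      have h1 : ∑ i, x₀ i * (a • y + b • z) i = a * ∑ i, x₀ i * y i + b * ∑ i, x₀ i * z i := by
        rw [Finset.mul_sum, Finset.mul_sum, ← Finset.sum_add_distrib]
        refine Finset.sum_congr rfl fun i _ => ?_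
        simp only [Pi.add_apply, Pi.smul_apply, smul_eq_mul]
        ring
      rw [h1]
      have h2 := mul_le_mul_of_nonneg_left hy' ha
      have h3 := mul_le_mul_of_nonneg_left hz' hb
      linarith
    have h1 := convexHull_min (by
      rintro _ ⟨t, ht, rfl⟩
      exact hx₀ t ht) hconv hy
    have h2 : ∑ i, x₀ i * (f (Pi.single i 1) / u) ≤ 1 := h1
    rw [hfx, div_le_one hupos] at h2
    linarith

/-- **Unconditional reflexive polytopes** in Euclidean space. -/
theorem eucl_reflexive {n : ℕ} (K : Set (EuclideanSpace ℝ (Fin n)))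
    (hu : ∀ x ∈ K, ∀ y : EuclideanSpace ℝ (Fin n), (∀ i, |y i| = |x i|) → y ∈ K)
    (h0 : 0 ∈ interior K) (S T : Finset (Fin n → ℤ))
    (hS : K = convexHull ℝ
      ((fun s : Fin n → ℤ => WithLp.toLp 2 fun i => (s i : ℝ)) '' (S : Set (Fin n → ℤ))))
    (hT : {y : EuclideanSpace ℝ (Fin n) | ∀ x ∈ K, inner ℝ x y ≤ 1} = convexHull ℝ
      ((fun s : Fin n → ℤ => WithLp.toLp 2 fun i => (s i : ℝ)) '' (T : Set (Fin n → ℤ)))) :
    ∃ U : Finset (EuclideanSpace ℝ (Fin n)), U.card ≤ 2 ^ n ∧
      K ⊆ ⋃ t ∈ U, (fun x => t + x) '' interior K := by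
  have hhull : ∀ R : Finset (Fin n → ℤ), fset (convexHull ℝ
      ((fun s : Fin n → ℤ => WithLp.toLp 2 fun i => (s i : ℝ)) '' (R : Set (Fin n → ℤ)))) =
      convexHull ℝ ((fun s : Fin n → ℤ => fun i => (s i : ℝ)) '' (R : Set (Fin n → ℤ))) := by
    intro R
    have h1 : ∀ L : Set (EuclideanSpace ℝ (Fin n)),
        fset L = (EuclideanSpace.equiv (Fin n) ℝ).toLinearMap '' L := by
      intro L
      ext x
      constructor
      · intro hx
        exact ⟨WithLp.toLp 2 x, hx, rfl⟩
      · rintro ⟨y, hy, rfl⟩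
        exact hy
    rw [h1, LinearMap.image_convexHull, Set.image_image]
    rfl
  have hKconv : Convex ℝ K := by rw [hS]; exact convex_convexHull ℝ _
  have hKc : IsCompact K := by
    rw [hS]
    exact (((finite_toSet S).image _).isCompact_convexHull ℝ)
  obtain ⟨h1, h2, h3, h4⟩ := fset_props hKconv hKc ⟨0, h0⟩ hu
  have hS' : fset K = convexHull ℝ
      ((fun s : Fin n → ℤ => fun i => (s i : ℝ)) '' (S : Set (Fin n → ℤ))) := by
    rw [← hhull, ← hS]
  have hP : {y : Fin n → ℝ | ∀ x ∈ fset K, ∑ i, x i * y i ≤ 1} = convexHull ℝ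
      ((fun s : Fin n → ℤ => fun i => (s i : ℝ)) '' (T : Set (Fin n → ℤ))) := by
    rw [← hhull, ← hT]
    have hin : ∀ x y : Fin n → ℝ, inner ℝ (WithLp.toLp 2 x : EuclideanSpace ℝ (Fin n))
        (WithLp.toLp 2 y) = ∑ i, x i * y i := by
      intro x y
      rw [PiLp.inner_apply]
      refine Finset.sum_congr rfl fun i _ => ?_
      rw [mul_comm]
      rfl
    ext y
    constructor
    · intro hy x hx
      have h5 := hy (WithLp.ofLp x) hx
      rw [← hin] at h5
      exact h5
    · intro hy x hx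
      have h5 := hy (WithLp.toLp 2 x) hx
      rw [hin] at h5
      exact h5
  have h0' : (0 : Fin n → ℝ) ∈ fset K := by
    have h5 : (0 : EuclideanSpace ℝ (Fin n)) ∈ K := interior_subset h0
    exact h5
  have h6 := unc_reflexive (fset K) h1 h2 h3 h4 S T hS' (bipolar h1 h2.isClosed h0' T hP)
  rw [Fintype.card_fin] at h6
  exact cov_fset h6

end Pool.Agent.Zk99.HB
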